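import Pool.Agent.Run7.h23.Lo.App
import Pool.Agent.N874.Jac.Def

/-!
# The coordinate ring is a principal ideal ring; points of low degree
-/

set_option autoImplicit false
set_option linter.all false

open Polynomial IsDedekindDomain Pool.Agent.Y160.SE
open scoped Classical nonZeroDivisors IntermediateField

namespace Run7.h23.Lo

section pid

variable {A : Type} [CommRing A] [IsDomain A]

theorem principal_of_eqv {I : Ideal A} (h : Eqv I ⊤) : ∃ c : A, I = Ideal.span {c} := by
  obtain ⟨a, b, ha, hb, hab⟩ := h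
  rw [Ideal.mul_top] at hab
  have h1 : b ∈ Ideal.span {a} := by
    have h2 : Ideal.span {a} * I ≤ Ideal.span {a} := Ideal.mul_le_left
    apply h2
    rw [hab]
    exact Ideal.mem_span_singleton_self b
  obtain ⟨c, hc⟩ := Ideal.mem_span_singleton'.1 h1
  refine ⟨c, ?_⟩
  apply Ideal.span_singleton_mul_right_injective ha
  show Ideal.span {a} * I = Ideal.span {a} * Ideal.span {c}
  rw [hab, Ideal.span_singleton_mul_span_singleton, ← hc, mul_comm]

end pid

section jac

variable {K : Type} [Field K]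

/-- Divisibility by two, in terms of ideals. -/
theorem div_ideal {F : K[X]} (hG : Good 2 (-1 : K) F)
    (h : Pool.Agent.N874.Jac.UniquelyTwoDivisible F) (I : Ideal (CR 2 F)) (hI : I ≠ ⊥) :
    ∃ J : Ideal (CR 2 F), J ≠ ⊥ ∧ Eqv I (J * J) := by
  have e : F.map (algebraMap K K) = F := Polynomial.map_id
  have key : ∀ I : Ideal (CR 2 (F.map (algebraMap K K))), I ≠ ⊥ →
      ∃ J : Ideal (CR 2 (F.map (algebraMap K K))), J ≠ ⊥ ∧ Eqv I (J * J) := by
    intro I hI
    obtain ⟨x, hx⟩ := cl_exists (Ω := K) hyps hG hI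
    obtain ⟨y, hy⟩ := h.2 x.toMul
    obtain ⟨J, hJ, hyJ⟩ := exists_cl (Ω := K) hyps hG (Additive.ofMul y : Jac 2 F K)
    refine ⟨J, hJ, ?_⟩
    have h1 := cl_mul (Ω := K) hyps hG hyJ hyJ
    refine (cl_eq_iff (Ω := K) hyps hG hx h1).1 ?_
    have h4 : y * y = x.toMul := (pow_two y).symm.trans hy
    exact (congrArg Additive.ofMul h4).symm
  rw [e] at key
  exact key I hI

end jac

section low

variable {K : Type} [Field K] {F : K[X]}

theorem norm_eq (hG : Good 2 (-1 : K) F) (z : CR 2 F) : Algebra.norm K[X] z = nm z := by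
  apply xp_inj' (f := F)
  rw [(hyps.norm 2 K (-1) F hG).1 z, Finset.prod_range_succ, Finset.prod_range_one, pow_zero,
    pow_one, ← nm_eq]
  rfl

theorem finrank_nm (hG : Good 2 (-1 : K) F) {z : CR 2 F} (hz : z ≠ 0) :
    Module.finrank K (CR 2 F ⧸ Ideal.span {z}) = (nm z).natDegree := by
  haveI := hyps.ring 2 K (-1) F hG
  rw [← norm_eq hG]
  exact finrank_quotient_span_eq_natDegree_norm (AdjoinRoot.powerBasis' (mon F)).basis hz

/-- Ideals of small codimension. -/
theorem low (hG : Good 2 (-1 : K) F) {g : ℕ} (hd : F.natDegree = 2 * g + 1)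
    (hp : ∀ I : Ideal (CR 2 F), I ≠ ⊥ → Eqv I ⊤) {I : Ideal (CR 2 F)} (hI : I ≠ ⊥)
    (hle : Module.finrank K (CR 2 F ⧸ I) ≤ 2 * g) :
    ∃ p : K[X], I = Ideal.span {xp 2 F p} := by
  haveI := hyps.ring 2 K (-1) F hG
  obtain ⟨z, rfl⟩ := principal_of_eqv (hp I hI)
  have hz : z ≠ 0 := by
    rintro rfl
    exact hI (Ideal.span_singleton_eq_bot.2 rfl)
  rw [finrank_nm hG hz] at hle
  have ho : Odd F.natDegree := by rw [hd]; exact odd_two_mul_add_one g
  have h1 := (le_iff ho).2 hle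
  have h2 : c1 z = 0 := by
    rcases h1.2 with h | h
    · exact h
    · omega
  refine ⟨c0 z, ?_⟩
  congr 1
  congr 1
  apply el_ext
  · rw [c0_xp]
  · rw [c1_xp, h2]

/-- Points of small degree. -/
theorem pts (hG : Good 2 (-1 : K) F) {g : ℕ} (hd : F.natDegree = 2 * g + 1)
    (hp : ∀ I : Ideal (CR 2 F), I ≠ ⊥ → Eqv I ⊤) (L : Type) [Field L] [Algebra K L]
    [FiniteDimensional K L] (hL : Module.finrank K L ≤ 2 * g) (x y : L)
    (hxy : y ^ 2 = aeval x F) : y ∉ K⟮x⟯ := by
  intro hy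
  haveI := hyps.ring 2 K (-1) F hG
  have hx : IsIntegral K x := Algebra.IsIntegral.isIntegral x
  have hy' : y ∈ (K⟮x⟯).toSubalgebra := hy
  rw [IntermediateField.adjoin_simple_toSubalgebra_of_isAlgebraic hx.isAlgebraic,
    Algebra.adjoin_singleton_eq_range_aeval] at hy'
  obtain ⟨c, hc⟩ := hy'
  have hev0 : eval₂ (aeval x : K[X] →ₐ[K] L).toRingHom y (X ^ 2 - C F) = 0 := by
    rw [eval₂_sub, eval₂_X_pow, eval₂_C, hxy]
    exact sub_self _
  obtain ⟨ev, hev1, hev2⟩ : ∃ ev : CR 2 F →ₐ[K] L, (∀ p : K[X], ev (xp 2 F p) = aeval x p) ∧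
      ev (yy 2 F) = y := by
    refine ⟨{ toRingHom := AdjoinRoot.lift (aeval x : K[X] →ₐ[K] L).toRingHom y hev0
              commutes' := ?_ }, ?_, ?_⟩
    · intro r
      show AdjoinRoot.lift (aeval x : K[X] →ₐ[K] L).toRingHom y hev0 (xp 2 F (C r)) = _
      rw [AdjoinRoot.lift_of]
      exact aeval_C x r
    · intro p
      show AdjoinRoot.lift (aeval x : K[X] →ₐ[K] L).toRingHom y hev0 (xp 2 F p) = _
      rw [AdjoinRoot.lift_of]
      rfl
    · show AdjoinRoot.lift (aeval x : K[X] →ₐ[K] L).toRingHom y hev0 (yy 2 F) = _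
      rw [AdjoinRoot.lift_root]
  have hker : RingHom.ker ev ≠ ⊥ := by
    intro h
    have h1 : xp 2 F (minpoly K x) ∈ RingHom.ker ev := by
      rw [RingHom.mem_ker, hev1, minpoly.aeval]
    rw [h, Ideal.mem_bot, ← xp_zero] at h1
    exact minpoly.ne_zero hx (xp_inj' h1)
  have hfr : Module.finrank K (CR 2 F ⧸ RingHom.ker ev) ≤ 2 * g := by
    refine le_trans ?_ hL
    exact LinearMap.finrank_le_finrank_of_injective (f := (Ideal.kerLiftAlg ev).toLinearMap)
      (Ideal.kerLiftAlg_injective ev)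
  obtain ⟨p, hpI⟩ := low hG hd hp hker hfr
  have h1 : yy 2 F - xp 2 F c ∈ RingHom.ker ev := by
    rw [RingHom.mem_ker, map_sub, hev1, hev2, ← hc]
    exact sub_self _
  rw [hpI, Ideal.mem_span_singleton] at h1
  obtain ⟨z, hz⟩ := h1
  have h2 := congrArg c1 hz
  rw [c1_sub, c1_xp, el_yy, c1_el, c1_xp_mul, sub_zero] at h2
  have h3 : (1 : CR 2 F) ∈ RingHom.ker ev := by
    rw [hpI, Ideal.mem_span_singleton]
    refine ⟨xp 2 F (c1 z), ?_⟩
    rw [← xp_mul, ← h2, xp_one]
  rw [RingHom.mem_ker, map_one] at h3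
  exact one_ne_zero h3

end low

end Run7.h23.Lo

namespace Run7.h23.Lo

open Polynomial IsDedekindDomain Pool.Agent.Y160.SE

section sqm

variable {K : Type} [Field K] {F : K[X]}

/-- `F` is not a square modulo a polynomial of small degree. -/
theorem not_sq (hG : Good 2 (-1 : K) F) {g : ℕ} (hd : F.natDegree = 2 * g + 1)
    (hp : ∀ I : Ideal (CR 2 F), I ≠ ⊥ → Eqv I ⊤) (u v : K[X]) (h0 : 0 < u.natDegree)
    (h1 : u.natDegree ≤ 2 * g) : ¬ u ∣ F - v ^ 2 := by
  intro hdvd
  have hu0 : u ≠ 0 := by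
    rintro rfl
    rw [natDegree_zero] at h0
    omega
  set I : Ideal (CR 2 F) := Ideal.span {xp 2 F u, yy 2 F - xp 2 F v} with hI
  have huI : xp 2 F u ∈ I := Ideal.subset_span (by simp)
  have hyI : yy 2 F - xp 2 F v ∈ I := Ideal.subset_span (by simp)
  have hI0 : I ≠ ⊥ := by
    intro h
    rw [h, Ideal.mem_bot, ← xp_zero] at huI
    exact hu0 (xp_inj' huI)
  -- the codimension
  have hfr : Module.finrank K (CR 2 F ⧸ I) ≤ 2 * g := by
    set μ : degreeLT K u.natDegree →ₗ[K] CR 2 F ⧸ I :=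
      { toFun := fun p => Ideal.Quotient.mk I (xp 2 F (p : K[X]))
        map_add' := by
          intro p q
          rw [Submodule.coe_add, xp_add, map_add]
        map_smul' := by
          intro c p
          rw [Submodule.coe_smul, smul_eq_C_mul, xp_mul, ← smul_cr]
          rfl } with hμ
    have hs : Function.Surjective μ := by
      intro z
      obtain ⟨w, rfl⟩ := Ideal.Quotient.mk_surjective z
      set p := c0 w + c1 w * v with hp
      refine ⟨⟨p % u, ?_⟩, ?_⟩
      · rw [mem_degreeLT, ← degree_eq_natDegree hu0]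
        exact EuclideanDomain.mod_lt p hu0
      · show Ideal.Quotient.mk I (xp 2 F (p % u)) = Ideal.Quotient.mk I w
        rw [Ideal.Quotient.eq]
        have e1 : u * (p / u) + p % u = p := EuclideanDomain.div_add_mod p u
        have e2 : xp 2 F (p % u) - w = -(xp 2 F (p / u) * xp 2 F u) -
            xp 2 F (c1 w) * (yy 2 F - xp 2 F v) := by
          have e3 : p % u = p - u * (p / u) := by linear_combination e1
          have e4 : xp 2 F p = xp 2 F (c0 w) + xp 2 F (c1 w) * xp 2 F v := by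
            rw [hp, xp_add, xp_mul]
          have e5 : w = xp 2 F (c0 w) + xp 2 F (c1 w) * yy 2 F := (el_eq w).symm
          rw [e3, xp_sub, xp_mul]
          linear_combination e4 - e5
        rw [e2]
        exact I.sub_mem (I.neg_mem (I.mul_mem_left _ huI)) (I.mul_mem_left _ hyI)
    have h3 := LinearMap.finrank_le_finrank_of_surjective hs
    rw [rank_dlt] at h3
    omega
  obtain ⟨p, hpI⟩ := low hG hd hp hI0 hfr
  -- `p` is a unit
  have h1' := hyI
  rw [hpI, Ideal.mem_span_singleton] at h1'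
  obtain ⟨z, hz⟩ := h1'
  have h2 := congrArg c1 hz
  rw [c1_sub, c1_xp, el_yy, c1_el, c1_xp_mul, sub_zero] at h2
  have h3 : (1 : CR 2 F) ∈ I := by
    rw [hpI, Ideal.mem_span_singleton]
    refine ⟨xp 2 F (c1 z), ?_⟩
    rw [← xp_mul, ← h2, xp_one]
  -- the value at the point
  have hev0 : eval₂ (Ideal.Quotient.mk (Ideal.span {u})) (Ideal.Quotient.mk (Ideal.span {u}) v)
      (X ^ 2 - C F : K[X][X]) = 0 := by
    rw [eval₂_sub, eval₂_X_pow, eval₂_C, ← map_pow, ← map_sub, Ideal.Quotient.eq_zero_iff_mem,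
      Ideal.mem_span_singleton, dvd_sub_comm]
    exact hdvd
  have h4 : I ≤ RingHom.ker (AdjoinRoot.lift (Ideal.Quotient.mk (Ideal.span {u}))
      (Ideal.Quotient.mk (Ideal.span {u}) v) hev0) := by
    rw [hI, Ideal.span_le]
    rintro x (rfl | rfl)
    · rw [SetLike.mem_coe, RingHom.mem_ker, AdjoinRoot.lift_of, Ideal.Quotient.eq_zero_iff_mem]
      exact Ideal.mem_span_singleton_self u
    · rw [SetLike.mem_coe, RingHom.mem_ker, map_sub, AdjoinRoot.lift_of, AdjoinRoot.lift_root,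
        sub_self]
  have h5 := h4 h3
  rw [RingHom.mem_ker, map_one, ← map_one (Ideal.Quotient.mk (Ideal.span {u})),
    Ideal.Quotient.eq_zero_iff_mem, Ideal.mem_span_singleton] at h5
  have h6 := natDegree_eq_zero_of_isUnit (isUnit_of_dvd_one h5)
  omega

end sqm

end Run7.h23.Lo
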