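import Pool.Agent.Run7.h23.Lo.Gs

/-!
# The local theorem over the field of fractions of a Dedekind ring
-/

set_option autoImplicit false
set_option linter.all false

open Polynomial IsDedekindDomain Pool.Agent.Y160.SE
open scoped Classical nonZeroDivisors

namespace Run7.h23.Lo

section

variable {R : Type} [CommRing R] [IsDedekindDomain R]

/-- The condition at the prime `v` over `2`: modulo `v ^ 2` the polynomial `f` is `A ^ 2 + x B ^ 2 + π E`
with `E` prime to `x B` modulo `v`. -/
def RegAt (v : HeightOneSpectrum R) (g : ℕ) (f : R[X]) : Prop :=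
  ∃ (π : R) (A B E : R[X]), π ∈ v.asIdeal ∧ π ∉ v.asIdeal ^ 2 ∧ A.natDegree ≤ g ∧ B.Monic ∧
    B.natDegree = g ∧ E.natDegree ≤ 2 * g ∧
    (∀ j, (f - (A ^ 2 + X * B ^ 2 + C π * E)).coeff j ∈ v.asIdeal ^ 2) ∧
    IsCoprime (E.map (Ideal.Quotient.mk v.asIdeal)) (X * B.map (Ideal.Quotient.mk v.asIdeal))

theorem mem_of_mul {v : HeightOneSpectrum R} {s x : R} (hs : s ∉ v.asIdeal)
    (h : s * x ∈ v.asIdeal ^ 2) : x ∈ v.asIdeal ^ 2 := by
  have hm := v.isMaximal
  obtain ⟨a, b, hb, hab⟩ := hm.exists_inv hs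
  -- `a s + b = 1`
  have h1 : (1 : R) = (a * s) ^ 2 + 2 * (a * s) * b + b ^ 2 := by rw [← one_pow 2, ← hab]; ring
  have h2 : x = a * (a * s + 2 * b) * (s * x) + b ^ 2 * x := by linear_combination x * h1
  rw [h2]
  exact Ideal.add_mem _ (Ideal.mul_mem_left _ _ h) (Ideal.mul_mem_right _ _ (Ideal.pow_mem_pow hb 2))

/-- The data over the localization. -/
theorem dat_of_reg (v : HeightOneSpectrum R) [Finite (R ⧸ v.asIdeal)] (h2 : (2 : R) ∈ v.asIdeal)
    {g : ℕ} {f : R[X]} (hm : f.Monic) (hd : f.natDegree = 2 * g + 1) (hR : RegAt v g f)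
    (O : Type) [CommRing O] [IsDomain O] [IsDiscreteValuationRing O] [Algebra R O]
    [IsLocalization.AtPrime O v.asIdeal] :
    ∃ (π : O) (A B E : O[X]), Dat (IsLocalRing.residue O) π g (f.map (algebraMap R O)) A B E := by
  obtain ⟨π, A, B, E, hπ1, hπ2, hA, hB, hBd, hE, hcong, hcop⟩ := hR
  set φ := algebraMap R O with hφ
  haveI := v.isMaximal
  have hmax : v.asIdeal.map φ = IsLocalRing.maximalIdeal O :=
    IsLocalization.AtPrime.map_eq_maximalIdeal v.asIdeal O
  obtain ⟨ϖ, hϖ⟩ := IsDiscreteValuationRing.exists_irreducible O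
  have hϖm := hϖ.maximalIdeal_eq
  have hmemO : ∀ x : R, x ∈ v.asIdeal → ϖ ∣ φ x := by
    intro x hx
    rw [← Ideal.mem_span_singleton, ← hϖm, ← hmax]
    exact Ideal.mem_map_of_mem φ hx
  have hmem2 : ∀ x : R, x ∈ v.asIdeal ^ 2 → ϖ ^ 2 ∣ φ x := by
    intro x hx
    rw [← Ideal.mem_span_singleton, ← Ideal.span_singleton_pow, ← hϖm, ← hmax, ← Ideal.map_pow]
    exact Ideal.mem_map_of_mem φ hx
  have hmem2' : ∀ x : R, ϖ ^ 2 ∣ φ x → x ∈ v.asIdeal ^ 2 := by
    intro x hx
    rw [← Ideal.mem_span_singleton, ← Ideal.span_singleton_pow, ← hϖm, ← hmax, ← Ideal.map_pow,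
      IsLocalization.mem_map_algebraMap_iff v.asIdeal.primeCompl O] at hx
    obtain ⟨⟨⟨y, hy⟩, ⟨s, hs⟩⟩, he⟩ := hx
    simp only at he
    rw [← map_mul] at he
    have hinj : Function.Injective φ := IsLocalization.injective O
      (v.asIdeal.primeCompl_le_nonZeroDivisors)
    have h3 := hinj he
    refine mem_of_mul (s := s) hs ?_
    rw [mul_comm, h3]
    exact hy
  obtain ⟨u, hu⟩ := hmemO π hπ1
  have hunit : IsUnit u := by
    by_contra hc
    apply hπ2
    apply hmem2'
    have h3 : u ∈ IsLocalRing.maximalIdeal O := (IsLocalRing.mem_maximalIdeal u).2 hc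
    rw [hϖm, Ideal.mem_span_singleton] at h3
    obtain ⟨w, rfl⟩ := h3
    exact ⟨w, by rw [hu]; ring⟩
  have hirr : Irreducible (φ π) := by
    have h3 : Associated ϖ (φ π) := ⟨hunit.unit, by rw [hu]; rfl⟩
    exact h3.irreducible hϖ
  have hker : ∀ x : O, IsLocalRing.residue O x = 0 ↔ φ π ∣ x := by
    intro x
    rw [IsLocalRing.residue_eq_zero_iff, hirr.maximalIdeal_eq, Ideal.mem_span_singleton]
  -- the remainder
  set r := f.map φ - ((A.map φ) ^ 2 + X * (B.map φ) ^ 2 + C (φ π) * E.map φ) with hr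
  have hr0 : r = (f - (A ^ 2 + X * B ^ 2 + C π * E)).map φ := by
    rw [hr]
    simp only [Polynomial.map_sub, Polynomial.map_add, Polynomial.map_mul, Polynomial.map_pow,
      map_X, map_C]
  have hdvd : C (φ π ^ 2) ∣ r := by
    rw [C_dvd_iff_dvd_coeff]
    intro j
    rw [hr0, coeff_map]
    obtain ⟨w, hw⟩ := hmem2 _ (hcong j)
    obtain ⟨v', hv'⟩ := hunit.exists_right_inv
    refine ⟨v' ^ 2 * w, ?_⟩
    rw [hw, hu]
    linear_combination (-(ϖ ^ 2 * w * (1 + u * v'))) * hv'
  obtain ⟨r', hr'⟩ := hdvd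
  have hπ0 : φ π ^ 2 ≠ 0 := pow_ne_zero 2 hirr.ne_zero
  have hBm : (B.map φ).Monic := hB.map φ
  have hBmd : (B.map φ).natDegree = g := by rw [hB.natDegree_map, hBd]
  have hrd : r'.natDegree ≤ 2 * g := by
    have h3 : r.natDegree = r'.natDegree := by rw [hr', natDegree_C_mul hπ0]
    rw [← h3]
    have h4 : r = (f.map φ - X * (B.map φ) ^ 2) - ((A.map φ) ^ 2 + C (φ π) * E.map φ) := by
      rw [hr]; ring
    have h5 : (X * (B.map φ) ^ 2).natDegree = 2 * g + 1 := by
      rw [monic_X.natDegree_mul (hBm.pow 2), natDegree_X, hBm.natDegree_pow, hBmd]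
      omega
    have h6 : (f.map φ - X * (B.map φ) ^ 2).natDegree ≤ 2 * g := by
      have h7 : (f.map φ - X * (B.map φ) ^ 2).degree < (f.map φ).degree := by
        refine degree_sub_lt ?_ (hm.map φ).ne_zero ?_
        · rw [degree_eq_natDegree (hm.map φ).ne_zero,
            degree_eq_natDegree (monic_X.mul (hBm.pow 2)).ne_zero, h5, hm.natDegree_map, hd]
        · rw [(hm.map φ).leadingCoeff, (monic_X.mul (hBm.pow 2)).leadingCoeff]
      by_cases h8 : f.map φ - X * (B.map φ) ^ 2 = 0
      · rw [h8, natDegree_zero]; omega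
      have h9 := natDegree_lt_natDegree h8 h7
      rw [hm.natDegree_map, hd] at h9
      omega
    have h10 : ((A.map φ) ^ 2 + C (φ π) * E.map φ).natDegree ≤ 2 * g := by
      refine (natDegree_add_le _ _).trans (max_le ?_ ?_)
      · refine natDegree_pow_le.trans ?_
        have : (A.map φ).natDegree ≤ g := natDegree_map_le.trans hA
        omega
      · exact (natDegree_C_mul_le _ _).trans (natDegree_map_le.trans hE)
    rw [h4]
    exact (natDegree_sub_le _ _).trans (max_le h6 h10)
  -- the residue field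
  haveI hfin : Finite (IsLocalRing.ResidueField O) := by
    have e := IsLocalization.AtPrime.equivQuotMaximalIdeal v.asIdeal O
    exact Finite.of_equiv _ e.toEquiv
  have htwo : (2 : IsLocalRing.ResidueField O) = 0 := by
    have h3 : IsLocalRing.residue O (φ 2) = 0 := by
      rw [IsLocalRing.residue_eq_zero_iff, ← hmax]
      exact Ideal.mem_map_of_mem φ h2
    rw [map_ofNat, map_ofNat] at h3
    exact h3
  refine ⟨φ π, A.map φ, B.map φ, E.map φ + C (φ π) * r', ?_⟩
  exact
    { surj := IsLocalRing.residue_surjective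
      irr := hirr
      ker := hker
      two := htwo
      sq := by
        intro a
        have hinj : Function.Injective (fun x : IsLocalRing.ResidueField O => x ^ 2) := by
          intro x y hxy
          have h3 : (x - y) ^ 2 = 0 := by
            have : x ^ 2 = y ^ 2 := hxy
            linear_combination this + (y ^ 2 - x * y) * htwo
          exact sub_eq_zero.1 ((pow_eq_zero_iff two_ne_zero).1 h3)
        exact (Finite.injective_iff_surjective.1 hinj) a
      eq := by
        have h3 : f.map φ = ((A.map φ) ^ 2 + X * (B.map φ) ^ 2 + C (φ π) * E.map φ) + r := by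
          rw [hr]; ring
        rw [h3, hr', C_pow]
        ring
      degA := natDegree_map_le.trans hA
      monB := hBm
      degB := hBmd
      degE := (natDegree_add_le _ _).trans (max_le (natDegree_map_le.trans hE)
        ((natDegree_C_mul_le _ _).trans hrd))
      cop := by
        have h3 : (E.map φ + C (φ π) * r').map (IsLocalRing.residue O) =
            E.map ((IsLocalRing.residue O).comp φ) := by
          rw [Polynomial.map_add, Polynomial.map_mul, map_C, (hker _).2 dvd_rfl, C_0, zero_mul,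
            add_zero, Polynomial.map_map]
        rw [h3, Polynomial.map_map]
        have h4 : ∀ a ∈ v.asIdeal, ((IsLocalRing.residue O).comp φ) a = 0 := by
          intro a ha
          rw [RingHom.comp_apply, IsLocalRing.residue_eq_zero_iff, ← hmax]
          exact Ideal.mem_map_of_mem φ ha
        have h5 : (Ideal.Quotient.lift v.asIdeal _ h4).comp (Ideal.Quotient.mk v.asIdeal) =
            (IsLocalRing.residue O).comp φ := Ideal.Quotient.lift_comp_mk _ _ _
        have h6 := hcop.map (mapRingHom (Ideal.Quotient.lift v.asIdeal _ h4))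
        rw [coe_mapRingHom, Polynomial.map_mul, map_X, Polynomial.map_map, Polynomial.map_map, h5] at h6
        exact h6 }

/-- If all classes are divisible by two, they are trivial. -/
theorem app {K : Type} [Field K] [Algebra R K] [IsFractionRing R K] (v : HeightOneSpectrum R)
    [Finite (R ⧸ v.asIdeal)] (h2 : (2 : R) ∈ v.asIdeal) {g : ℕ} {f : R[X]} (hm : f.Monic)
    (hd : f.natDegree = 2 * g + 1) (hR : RegAt v g f) {F : K[X]}
    (hF : f.map (algebraMap R K) = F) (hG : Good 2 (-1 : K) F)
    (hdiv : ∀ I : Ideal (CR 2 F), I ≠ ⊥ → ∃ J : Ideal (CR 2 F), J ≠ ⊥ ∧ Eqv I (J * J))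
    {I : Ideal (CR 2 F)} (hI : I ≠ ⊥) : Eqv I ⊤ := by
  set O := Localization.AtPrime v.asIdeal with hO
  haveI : IsDiscreteValuationRing O :=
    IsLocalization.AtPrime.isDiscreteValuationRing_of_dedekind_domain R v.ne_bot O
  obtain ⟨π, A, B, E, D⟩ := dat_of_reg v h2 hm hd hR O
  have hM : v.asIdeal.primeCompl ≤ (R⁰).comap (RingHom.id R) :=
    v.asIdeal.primeCompl_le_nonZeroDivisors
  letI : Algebra O K := (IsLocalization.map (M := v.asIdeal.primeCompl) (T := R⁰) K (RingHom.id R) hM :
    O →+* K).toAlgebra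
  haveI : IsScalarTower R O K := IsScalarTower.of_algebraMap_eq' (by
    rw [RingHom.algebraMap_toAlgebra, IsLocalization.map_comp, RingHom.comp_id])
  haveI : IsFractionRing O K :=
    IsFractionRing.isFractionRing_of_isDomain_of_isLocalization v.asIdeal.primeCompl O K
  have h3 : (f.map (algebraMap R O)).map (algebraMap O K) = F := by
    rw [Polynomial.map_map, ← IsScalarTower.algebraMap_eq, hF]
  subst h3
  exact main_local D hG hdiv hI

end

end Run7.h23.Lo
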