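import Pool.Agent.Y160.SE.All

/-!
# The ring `E[x, y] / (y ^ 2 - f(x))`: coordinates, conjugation, norm, pole order at infinity
-/

set_option autoImplicit false
set_option linter.all false

open Polynomial Pool.Agent.Y160.SE

namespace Run7.h23.Lo

section cr

variable {E : Type} [CommRing E] [IsDomain E] {f : E[X]}

/-- The element `a + b y`. -/
noncomputable def el (f : E[X]) (a b : E[X]) : CR 2 f := xp 2 f a + xp 2 f b * yy 2 f

theorem mon (f : E[X]) : (X ^ 2 - C f : E[X][X]).Monic := monic_X_pow_sub_C f two_ne_zero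

/-- The first coordinate. -/
noncomputable def c0 (h : CR 2 f) : E[X] := (AdjoinRoot.modByMonicHom (mon f) h).coeff 0

/-- The second coordinate. -/
noncomputable def c1 (h : CR 2 f) : E[X] := (AdjoinRoot.modByMonicHom (mon f) h).coeff 1

theorem el_mk (a b : E[X]) : el f a b = AdjoinRoot.mk (X ^ 2 - C f : E[X][X]) (C b * X + C a) := by
  rw [map_add, map_mul, add_comm]
  rfl

theorem mbm_el (a b : E[X]) : AdjoinRoot.modByMonicHom (mon f) (el f a b) = C b * X + C a := by
  rw [el_mk, AdjoinRoot.modByMonicHom_mk, modByMonic_eq_self_iff (mon f)]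
  refine lt_of_le_of_lt (degree_linear_le) ?_
  rw [degree_X_pow_sub_C two_pos]
  exact Nat.one_lt_ofNat

@[simp] theorem c0_el (a b : E[X]) : c0 (el f a b) = a := by
  rw [c0, mbm_el]; simp

@[simp] theorem c1_el (a b : E[X]) : c1 (el f a b) = b := by
  rw [c1, mbm_el]; simp

theorem el_eq (h : CR 2 f) : el f (c0 h) (c1 h) = h := by
  have h1 := AdjoinRoot.mk_leftInverse (mon f) h
  have h2 : (AdjoinRoot.modByMonicHom (mon f) h).natDegree ≤ 1 := by
    obtain ⟨p, rfl⟩ := AdjoinRoot.mk_surjective h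
    rw [AdjoinRoot.modByMonicHom_mk]
    have h3 := natDegree_modByMonic_lt p (mon f) (by
      intro h
      have := natDegree_X_pow_sub_C (n := 2) (r := f)
      rw [h, natDegree_one] at this
      omega)
    rw [natDegree_X_pow_sub_C] at h3
    omega
  rw [el_mk, c0, c1, ← eq_X_add_C_of_natDegree_le_one h2]
  exact h1

theorem el_ext {h k : CR 2 f} (h0 : c0 h = c0 k) (h1 : c1 h = c1 k) : h = k := by
  rw [← el_eq h, ← el_eq k, h0, h1]

theorem el_xp (a : E[X]) : xp 2 f a = el f a 0 := by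
  rw [el, xp_zero, zero_mul, add_zero]

theorem el_yy : yy 2 f = el f 0 1 := by
  rw [el, xp_zero, xp_one, one_mul, zero_add]

@[simp] theorem c0_xp (a : E[X]) : c0 (xp 2 f a) = a := by rw [el_xp, c0_el]

@[simp] theorem c1_xp (a : E[X]) : c1 (xp 2 f a) = 0 := by rw [el_xp, c1_el]

theorem xp_inj' {a b : E[X]} (h : xp 2 f a = xp 2 f b) : a = b := by
  rw [← c0_xp (f := f) a, h, c0_xp]

theorem el_add (a b c d : E[X]) : el f a b + el f c d = el f (a + c) (b + d) := by
  rw [el, el, el, xp_add, xp_add]; ring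

theorem el_sub (a b c d : E[X]) : el f a b - el f c d = el f (a - c) (b - d) := by
  rw [el, el, el, xp_sub, xp_sub]; ring

theorem el_mul (a b c d : E[X]) :
    el f a b * el f c d = el f (a * c + b * d * f) (a * d + b * c) := by
  have h := yy_pow 2 f
  simp only [el, xp_add, xp_mul]
  linear_combination (xp 2 f b * xp 2 f d) * h

theorem xp_mul_el (a c d : E[X]) : xp 2 f a * el f c d = el f (a * c) (a * d) := by
  rw [el, el, xp_mul, xp_mul]; ring

@[simp] theorem c0_add (h k : CR 2 f) : c0 (h + k) = c0 h + c0 k := by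
  conv_lhs => rw [← el_eq h, ← el_eq k, el_add, c0_el]

@[simp] theorem c1_add (h k : CR 2 f) : c1 (h + k) = c1 h + c1 k := by
  conv_lhs => rw [← el_eq h, ← el_eq k, el_add, c1_el]

@[simp] theorem c0_sub (h k : CR 2 f) : c0 (h - k) = c0 h - c0 k := by
  conv_lhs => rw [← el_eq h, ← el_eq k, el_sub, c0_el]

@[simp] theorem c1_sub (h k : CR 2 f) : c1 (h - k) = c1 h - c1 k := by
  conv_lhs => rw [← el_eq h, ← el_eq k, el_sub, c1_el]

@[simp] theorem c0_xp_mul (a : E[X]) (h : CR 2 f) : c0 (xp 2 f a * h) = a * c0 h := by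
  conv_lhs => rw [← el_eq h, xp_mul_el, c0_el]

@[simp] theorem c1_xp_mul (a : E[X]) (h : CR 2 f) : c1 (xp 2 f a * h) = a * c1 h := by
  conv_lhs => rw [← el_eq h, xp_mul_el, c1_el]

@[simp] theorem c0_zero : c0 (0 : CR 2 f) = 0 := by
  rw [← xp_zero (f := f), c0_xp]

@[simp] theorem c1_zero : c1 (0 : CR 2 f) = 0 := by
  rw [← xp_zero (f := f), c1_xp]

/-- The conjugation `y ↦ -y`. -/
noncomputable def io (f : E[X]) : CR 2 f →+* CR 2 f := tw 2 f (-1) (by norm_num)

@[simp] theorem io_xp (a : E[X]) : io f (xp 2 f a) = xp 2 f a := tw_xp _ _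

theorem io_yy : io f (yy 2 f) = - yy 2 f := by
  rw [io, tw_yy, C_neg, C_1, xp_neg, xp_one]; ring

theorem io_el (a b : E[X]) : io f (el f a b) = el f a (-b) := by
  rw [el, map_add, map_mul, io_xp, io_xp, io_yy, el, xp_neg]; ring

theorem io_io (h : CR 2 f) : io f (io f h) = h := by
  rw [← el_eq h, io_el, io_el, neg_neg]

/-- The norm. -/
noncomputable def nm (h : CR 2 f) : E[X] := c0 h ^ 2 - c1 h ^ 2 * f

theorem nm_eq (h : CR 2 f) : h * io f h = xp 2 f (nm h) := by
  conv_lhs => rw [← el_eq h, io_el, el_mul]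
  rw [el_xp, nm]
  congr 1 <;> ring

theorem nm_mul (h k : CR 2 f) : nm (h * k) = nm h * nm k := by
  apply xp_inj' (f := f)
  rw [← nm_eq, map_mul, xp_mul, ← nm_eq, ← nm_eq]; ring

@[simp] theorem nm_xp (a : E[X]) : nm (xp 2 f a) = a ^ 2 := by
  rw [nm, c0_xp, c1_xp]; ring

@[simp] theorem nm_one : nm (1 : CR 2 f) = 1 := by
  rw [← xp_one, nm_xp, one_pow]

theorem nm_io (h : CR 2 f) : nm (io f h) = nm h := by
  rw [← el_eq h, io_el, nm, nm]; simp

/-- Pole order at infinity at most `m`. -/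
def Le (m : ℕ) (h : CR 2 f) : Prop :=
  2 * (c0 h).natDegree ≤ m ∧ (c1 h = 0 ∨ 2 * (c1 h).natDegree + f.natDegree ≤ m)

theorem Le.mono {m n : ℕ} {h : CR 2 f} (hh : Le m h) (hmn : m ≤ n) : Le n h :=
  ⟨hh.1.trans hmn, hh.2.imp id fun h => h.trans hmn⟩

theorem Le.add {m : ℕ} {h k : CR 2 f} (hh : Le m h) (hk : Le m k) : Le m (h + k) := by
  constructor
  · rw [c0_add]
    have h1 := natDegree_add_le (c0 h) (c0 k)
    have h2 := hh.1
    have h3 := hk.1
    omega
  · rw [c1_add]
    rcases hh.2 with h1 | h1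
    · rw [h1, zero_add]; exact hk.2
    · rcases hk.2 with h2 | h2
      · rw [h2, add_zero]; exact Or.inr h1
      · right
        have h3 := natDegree_add_le (c1 h) (c1 k)
        omega

theorem Le.xp_mul {m n : ℕ} {h : CR 2 f} (hh : Le m h) {a : E[X]} (ha : 2 * a.natDegree ≤ n) :
    Le (n + m) (xp 2 f a * h) := by
  constructor
  · rw [c0_xp_mul]
    have h1 := natDegree_mul_le (p := a) (q := c0 h)
    have h2 := hh.1
    omega
  · rw [c1_xp_mul]
    rcases hh.2 with h1 | h1
    · rw [h1, mul_zero]; exact Or.inl rfl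
    · right
      have h3 := natDegree_mul_le (p := a) (q := c1 h)
      omega

theorem Le.zero (m : ℕ) : Le m (0 : CR 2 f) := ⟨by simp, Or.inl (by simp)⟩

theorem Le.mul {m n : ℕ} {h k : CR 2 f} (hh : Le m h) (hk : Le n k) : Le (m + n) (h * k) := by
  rw [← el_eq h, ← el_eq k, el_mul]
  obtain ⟨h1, h2⟩ := hh
  obtain ⟨h3, h4⟩ := hk
  constructor
  · rw [c0_el]
    have e1 := natDegree_add_le (c0 h * c0 k) (c1 h * c1 k * f)
    have e2 := natDegree_mul_le (p := c0 h) (q := c0 k)
    rcases h2 with h2 | h2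
    · rw [h2, zero_mul, zero_mul, add_zero]
      omega
    · rcases h4 with h4 | h4
      · rw [h4, mul_zero, zero_mul, add_zero]
        omega
      · have e3 := natDegree_mul_le (p := c1 h * c1 k) (q := f)
        have e4 := natDegree_mul_le (p := c1 h) (q := c1 k)
        omega
  · rw [c1_el]
    have e1 := natDegree_add_le (c0 h * c1 k) (c1 h * c0 k)
    have e2 := natDegree_mul_le (p := c0 h) (q := c1 k)
    have e3 := natDegree_mul_le (p := c1 h) (q := c0 k)
    rcases h2 with h2 | h2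
    · rw [h2, zero_mul, add_zero]
      rcases h4 with h4 | h4
      · rw [h4, mul_zero]; exact Or.inl rfl
      · right; omega
    · rcases h4 with h4 | h4
      · rw [h4, mul_zero, zero_add]
        right; omega
      · right; omega

theorem Le.io {m : ℕ} {h : CR 2 f} (hh : Le m h) : Le m (io f h) := by
  rw [← el_eq h, io_el]
  obtain ⟨h1, h2⟩ := hh
  refine ⟨by rw [c0_el]; exact h1, ?_⟩
  rw [c1_el]
  rcases h2 with h2 | h2
  · left; rw [h2, neg_zero]
  · right; rw [natDegree_neg]; exact h2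

/-- The pole order is the degree of the norm. -/
theorem le_iff (ho : Odd f.natDegree) {m : ℕ} {h : CR 2 f} : Le m h ↔ (nm h).natDegree ≤ m := by
  have hf0 : f ≠ 0 := by
    rintro rfl
    rw [natDegree_zero] at ho
    exact absurd ho (by decide)
  obtain ⟨r, hr⟩ := ho
  by_cases h1 : c1 h = 0
  · rw [nm, h1]
    have : (c0 h ^ 2 - 0 ^ 2 * f).natDegree = 2 * (c0 h).natDegree := by
      rw [zero_pow two_ne_zero, zero_mul, sub_zero, natDegree_pow]
    rw [this, Le]
    exact ⟨fun h => h.1, fun h => ⟨h, Or.inl h1⟩⟩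
  · have e1 : (c1 h ^ 2 * f).natDegree = 2 * (c1 h).natDegree + f.natDegree := by
      rw [natDegree_mul (pow_ne_zero 2 h1) hf0, natDegree_pow]
    have e2 : (c0 h ^ 2).natDegree = 2 * (c0 h).natDegree := natDegree_pow _ _
    have e3 : (nm h).natDegree = max (2 * (c0 h).natDegree) (2 * (c1 h).natDegree + f.natDegree) := by
      rw [nm]
      rcases lt_trichotomy (2 * (c0 h).natDegree) (2 * (c1 h).natDegree + f.natDegree) with h2 | h2 | h2
      · rw [natDegree_sub_eq_right_of_natDegree_lt (by rw [e1, e2]; exact h2), e1, max_eq_right h2.le]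
      · omega
      · rw [natDegree_sub_eq_left_of_natDegree_lt (by rw [e1, e2]; exact h2), e2, max_eq_left h2.le]
    rw [e3, Le, max_le_iff]
    exact ⟨fun h => ⟨h.1, h.2.resolve_left h1⟩, fun h => ⟨h.1, Or.inr h.2⟩⟩

theorem nm_ne_zero (ho : Odd f.natDegree) {h : CR 2 f} (hh : h ≠ 0) : nm h ≠ 0 := by
  have hf0 : f ≠ 0 := by
    rintro rfl
    rw [natDegree_zero] at ho
    exact absurd ho (by decide)
  obtain ⟨r, hr⟩ := ho
  intro h0
  rw [nm, sub_eq_zero] at h0
  by_cases h1 : c1 h = 0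
  · rw [h1, zero_pow two_ne_zero, zero_mul] at h0
    have h2 : c0 h = 0 := by simpa using h0
    apply hh
    rw [← el_eq h, h1, h2, el, xp_zero]
    ring
  · have e1 : (c1 h ^ 2 * f).natDegree = 2 * (c1 h).natDegree + f.natDegree := by
      rw [natDegree_mul (pow_ne_zero 2 h1) hf0, natDegree_pow]
    have e2 : (c0 h ^ 2).natDegree = 2 * (c0 h).natDegree := natDegree_pow _ _
    rw [← h0, e2] at e1
    omega

/-- The ring is a domain. -/
theorem dom (ho : Odd f.natDegree) : IsDomain (CR 2 f) := by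
  haveI : Nontrivial (CR 2 f) := ⟨⟨0, 1, fun h => by
    have : c0 (0 : CR 2 f) = c0 (1 : CR 2 f) := by rw [h]
    rw [c0_zero, ← xp_one, c0_xp] at this
    exact zero_ne_one this⟩⟩
  haveI : NoZeroDivisors (CR 2 f) := ⟨fun {a b} hab => by
    by_contra hc
    push Not at hc
    have h1 := nm_mul a b
    rw [hab] at h1
    have h2 : nm (0 : CR 2 f) = 0 := by rw [nm]; simp
    rw [h2] at h1
    exact mul_ne_zero (nm_ne_zero ho hc.1) (nm_ne_zero ho hc.2) h1.symm⟩
  exact NoZeroDivisors.to_isDomain _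

end cr

section map

variable {E E' : Type} [CommRing E] [IsDomain E] [CommRing E'] [IsDomain E'] (φ : E →+* E')
  {f : E[X]} {f' : E'[X]} (hf : f.map φ = f')

theorem map_el (a b : E[X]) : crMap 2 φ f f' hf (el f a b) = el f' (a.map φ) (b.map φ) := by
  rw [el, map_add, map_mul, crMap_xp, crMap_xp, crMap_yy, el]

@[simp] theorem c0_map (h : CR 2 f) : c0 (crMap 2 φ f f' hf h) = (c0 h).map φ := by
  conv_lhs => rw [← el_eq h, map_el, c0_el]

@[simp] theorem c1_map (h : CR 2 f) : c1 (crMap 2 φ f f' hf h) = (c1 h).map φ := by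
  conv_lhs => rw [← el_eq h, map_el, c1_el]

theorem nm_map (h : CR 2 f) : nm (crMap 2 φ f f' hf h) = (nm h).map φ := by
  rw [nm, nm, c0_map, c1_map, Polynomial.map_sub, Polynomial.map_mul, Polynomial.map_pow,
    Polynomial.map_pow, hf]

theorem io_map (h : CR 2 f) : io f' (crMap 2 φ f f' hf h) = crMap 2 φ f f' hf (io f h) := by
  rw [← el_eq h, map_el, io_el, io_el, map_el, Polynomial.map_neg]

theorem map_inj (hφ : Function.Injective φ) : Function.Injective (crMap 2 φ f f' hf) := by
  intro a b h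
  apply el_ext
  · have := congrArg c0 h
    rw [c0_map, c0_map] at this
    exact Polynomial.map_injective φ hφ this
  · have := congrArg c1 h
    rw [c1_map, c1_map] at this
    exact Polynomial.map_injective φ hφ this

theorem le_map (hφ : Function.Injective φ) {m : ℕ} {h : CR 2 f} :
    Le m (crMap 2 φ f f' hf h) ↔ Le m h := by
  have e : f'.natDegree = f.natDegree := by
    rw [← hf, natDegree_map_eq_of_injective hφ]
  rw [Le, Le, c0_map, c1_map, natDegree_map_eq_of_injective hφ, natDegree_map_eq_of_injective hφ,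
    Polynomial.map_eq_zero_iff hφ, e]

end map

end Run7.h23.Lo
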