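import Pool.Agent.Run7.h23.Lo.Bas

/-!
# Dimensions: the spaces of functions with a pole of bounded order at infinity; ideals
-/

set_option autoImplicit false
set_option linter.all false

open Polynomial Pool.Agent.Y160.SE
open scoped Classical

namespace Run7.h23.Lo

section

variable {E : Type} [CommRing E] [IsDomain E] {f : E[X]}

theorem dlt {p : E[X]} {n : ℕ} : p ∈ degreeLT E n ↔ p = 0 ∨ p.natDegree < n := by
  rw [mem_degreeLT]
  by_cases hp : p = 0
  · simp [hp]
  · rw [natDegree_lt_iff_degree_lt hp]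
    simp [hp]

theorem smul_cr (c : E) (h : CR 2 f) : c • h = xp 2 f (C c) * h := by
  rw [Algebra.smul_def]
  rfl

theorem smul_el (c : E) (a b : E[X]) : c • el f a b = el f (c • a) (c • b) := by
  rw [smul_cr, xp_mul_el, smul_eq_C_mul, smul_eq_C_mul]

/-- The pairs of polynomials as elements. -/
noncomputable def Phi (f : E[X]) (n₁ n₂ : ℕ) : (degreeLT E n₁ × degreeLT E n₂) →ₗ[E] CR 2 f where
  toFun p := el f p.1 p.2
  map_add' p q := by
    rw [el_add]; rfl
  map_smul' c p := by
    rw [RingHom.id_apply, smul_el]; rfl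

theorem Phi_inj (n₁ n₂ : ℕ) : Function.Injective (Phi f n₁ n₂) := by
  rintro ⟨a, b⟩ ⟨c, d⟩ h
  have h1 : el f a b = el f c d := h
  have h2 := congrArg c0 h1
  have h3 := congrArg c1 h1
  rw [c0_el, c0_el] at h2
  rw [c1_el, c1_el] at h3
  ext1 <;> [exact Subtype.ext h2; exact Subtype.ext h3]

instance fin_dlt (n : ℕ) : Module.Finite E (degreeLT E n) :=
  Module.Finite.equiv (degreeLTEquiv E n).symm

instance free_dlt (n : ℕ) : Module.Free E (degreeLT E n) :=
  Module.Free.of_equiv (degreeLTEquiv E n).symm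

theorem rank_dlt (n : ℕ) : Module.finrank E (degreeLT E n) = n := by
  rw [LinearEquiv.finrank_eq (degreeLTEquiv E n)]
  simp

/-- The space of functions with a pole of order at most `m`. -/
noncomputable def VV (f : E[X]) (m : ℕ) : Submodule E (CR 2 f) :=
  LinearMap.range (Phi f (m / 2 + 1) ((m + 2 - f.natDegree) / 2))

theorem mem_VV {m : ℕ} (ho : Odd f.natDegree) {h : CR 2 f} : h ∈ VV f m ↔ Le m h := by
  obtain ⟨g, hg⟩ := ho
  rw [VV, LinearMap.mem_range]
  constructor
  · rintro ⟨⟨⟨a, ha⟩, ⟨b, hb⟩⟩, rfl⟩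
    rw [dlt] at ha hb
    show Le m (el f a b)
    constructor
    · rw [c0_el]
      rcases ha with ha | ha
      · rw [ha, natDegree_zero]; omega
      · omega
    · rw [c1_el]
      rcases hb with hb | hb
      · exact Or.inl hb
      · right; omega
  · rintro ⟨h0, h1⟩
    refine ⟨⟨⟨c0 h, dlt.2 (Or.inr (by omega))⟩, ⟨c1 h, dlt.2 (h1.imp id fun h => by omega)⟩⟩, ?_⟩
    exact el_eq h

instance fin_VV (m : ℕ) : Module.Finite E (VV f m) := by
  unfold VV
  infer_instance

theorem rank_VV {g m : ℕ} (hd : f.natDegree = 2 * g + 1) (hm : 2 * g ≤ m + 1) :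
    Module.finrank E (VV f m) + g = m + 1 := by
  have h1 := LinearEquiv.finrank_eq (LinearEquiv.ofInjective (Phi f (m / 2 + 1)
    ((m + 2 - f.natDegree) / 2)) (Phi_inj _ _))
  rw [Module.finrank_prod, rank_dlt, rank_dlt] at h1
  rw [VV, ← h1]
  omega

/-- Division by a monic polynomial. -/
theorem div_cr {u : E[X]} (hu : u.Monic) (h : CR 2 f) : ∃ q r : CR 2 f, h = xp 2 f u * q + r ∧
    (c0 r ∈ degreeLT E u.natDegree) ∧ (c1 r ∈ degreeLT E u.natDegree) := by
  refine ⟨el f (c0 h /ₘ u) (c1 h /ₘ u), el f (c0 h %ₘ u) (c1 h %ₘ u), ?_, ?_, ?_⟩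
  · rw [xp_mul_el, el_add]
    conv_lhs => rw [← el_eq h]
    congr 1
    · rw [add_comm]; exact (modByMonic_add_div _ _).symm
    · rw [add_comm]; exact (modByMonic_add_div _ _).symm
  · rw [c0_el, mem_degreeLT, ← degree_eq_natDegree hu.ne_zero]
    exact degree_modByMonic_lt _ hu
  · rw [c1_el, mem_degreeLT, ← degree_eq_natDegree hu.ne_zero]
    exact degree_modByMonic_lt _ hu

/-- A map with domain a finite free module which is surjective modulo `u`. -/
theorem sur {M : Type} [AddCommGroup M] [Module E M] (q : CR 2 f →ₗ[E] M)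
    (hq : Function.Surjective q) {u : E[X]} (hu : u.Monic) (hI : ∀ h, q (xp 2 f u * h) = 0) :
    Function.Surjective (q.comp (Phi f u.natDegree u.natDegree)) := by
  intro z
  obtain ⟨h, rfl⟩ := hq z
  obtain ⟨p, r, hpr, h0, h1⟩ := div_cr hu h
  refine ⟨⟨⟨c0 r, h0⟩, ⟨c1 r, h1⟩⟩, ?_⟩
  rw [hpr, map_add, hI, zero_add]
  show q (el f (c0 r) (c1 r)) = q r
  rw [el_eq]

end

section abs

variable {K R : Type} [Field K] [CommRing R] [IsDedekindDomain R] [Algebra K R]

/-- The codimension of an ideal. -/
theorem codimA (σ : R →+* R) (σL : R ≃ₗ[K] R) (hσ : ∀ x, σL x = σ x) (hσσ : ∀ x, σ (σ x) = x)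
    {I : Ideal R} (hI : I ≠ ⊥) {n : ℕ}
    (hfN : Module.Finite K (R ⧸ (I * I.map σ).restrictScalars K))
    (hrN : Module.finrank K (R ⧸ (I * I.map σ).restrictScalars K) ≤ 2 * n) :
    Module.Finite K (R ⧸ I.restrictScalars K) ∧
      Module.finrank K (R ⧸ I.restrictScalars K) ≤ n := by
  have hioinj : Function.Injective σ := fun a b h => by
    rw [← hσσ a, h, hσσ]
  have hJ0 : I.map σ ≠ ⊥ := by
    rw [Ne, Ideal.map_eq_bot_iff_of_injective hioinj]
    exact hI
  have hN0 : I * I.map σ ≠ ⊥ := by
    intro h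
    rcases Ideal.mul_eq_bot.1 h with h | h
    · exact hI h
    · exact hJ0 h
  have hle : I * I.map σ ≤ I := Ideal.mul_le_left
  have hNI : (I * I.map σ).restrictScalars K ≤ I.restrictScalars K := by
    intro x hx
    rw [Submodule.restrictScalars_mem] at hx ⊢
    exact hle hx
  have hq := Submodule.factor_surjective hNI
  haveI hfI : Module.Finite K (R ⧸ I.restrictScalars K) := Module.Finite.of_surjective _ hq
  refine ⟨hfI, ?_⟩
  obtain ⟨a, ha⟩ := IsDedekindDomain.exists_sup_span_eq hle hN0
  have haI : a ∈ I := by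
    rw [← ha]
    exact Ideal.mem_sup_right (Ideal.mem_span_singleton_self a)
  -- multiplication by `a`
  have hker : LinearMap.ker (((I * I.map σ).restrictScalars K).mkQ.comp (LinearMap.mulLeft K a)) =
      (I.map σ).restrictScalars K := by
    ext r
    rw [LinearMap.mem_ker, LinearMap.comp_apply, ← LinearMap.mem_ker, Submodule.ker_mkQ,
      LinearMap.mulLeft_apply]
    rw [Submodule.restrictScalars_mem, Submodule.restrictScalars_mem]
    constructor
    · intro h
      have h1 : I * Ideal.span {r} ≤ I * I.map σ := by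
        conv_lhs => rw [← ha]
        rw [Ideal.sup_mul, sup_le_iff]
        refine ⟨Ideal.mul_le_left, ?_⟩
        rw [Ideal.span_singleton_mul_span_singleton, Ideal.span_singleton_le_iff_mem]
        exact h
      have h2 : I.map σ ∣ Ideal.span {r} := by
        rw [← mul_dvd_mul_iff_left hI]
        exact Ideal.dvd_iff_le.2 h1
      exact Ideal.dvd_span_singleton.1 h2
    · intro h
      exact Ideal.mul_mem_mul haI h
  have h1 : Module.finrank K (R ⧸ (I.map σ).restrictScalars K) =
      Module.finrank K (LinearMap.range (((I * I.map σ).restrictScalars K).mkQ.comp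
        (LinearMap.mulLeft K a))) := by
    rw [← hker]
    exact LinearEquiv.finrank_eq (LinearMap.quotKerEquivRange _)
  have h2 : LinearMap.range (((I * I.map σ).restrictScalars K).mkQ.comp
        (LinearMap.mulLeft K a)) ≤ LinearMap.ker (Submodule.factor hNI) := by
    rintro _ ⟨r, rfl⟩
    rw [LinearMap.mem_ker, LinearMap.comp_apply, Submodule.factor_mk, Submodule.mkQ_apply,
      Submodule.Quotient.mk_eq_zero, Submodule.restrictScalars_mem]
    exact I.mul_mem_right _ haI
  have h3 := Submodule.finrank_mono h2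
  have h4 := LinearMap.finrank_range_add_finrank_ker (Submodule.factor hNI)
  rw [LinearMap.range_eq_top.2 hq, finrank_top] at h4
  have h5 : Module.finrank K (R ⧸ I.restrictScalars K) =
      Module.finrank K (R ⧸ (I.map σ).restrictScalars K) := by
    refine LinearEquiv.finrank_eq (Submodule.Quotient.equiv _ _ σL ?_)
    ext x
    rw [Submodule.mem_map]
    constructor
    · rintro ⟨y, hy, rfl⟩
      rw [Submodule.restrictScalars_mem] at hy ⊢
      rw [LinearEquiv.coe_coe, hσ]
      exact Ideal.mem_map_of_mem σ hy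
    · intro hx
      rw [Submodule.restrictScalars_mem] at hx
      refine ⟨σ x, ?_, ?_⟩
      · rw [Submodule.restrictScalars_mem]
        have h6 := Ideal.mem_map_of_mem σ hx
        rw [Ideal.map_map] at h6
        have h7 : σ.comp σ = RingHom.id R := RingHom.ext hσσ
        rwa [h7, Ideal.map_id] at h6
      · rw [LinearEquiv.coe_coe, hσ, hσσ]
  omega

end abs

section fld

variable {K : Type} [Field K] {F : K[X]} [IsDedekindDomain (CR 2 F)]

/-- The conjugation as a linear equivalence. -/
noncomputable def ioL (F : K[X]) : CR 2 F ≃ₗ[K] CR 2 F where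
  toFun := io F
  invFun := io F
  left_inv := io_io
  right_inv := io_io
  map_add' := map_add _
  map_smul' c h := by
    rw [RingHom.id_apply, smul_cr, smul_cr, map_mul, io_xp]

/-- The codimension of an ideal is at most the degree of its norm. -/
theorem codim {I : Ideal (CR 2 F)} (hI : I ≠ ⊥) {u : K[X]} (hu : u ≠ 0)
    (hn : I * I.map (io F) = Ideal.span {xp 2 F u}) :
    Module.Finite K (CR 2 F ⧸ I.restrictScalars K) ∧
      Module.finrank K (CR 2 F ⧸ I.restrictScalars K) ≤ u.natDegree := by
  -- monic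
  have hvm : (C (u.leadingCoeff)⁻¹ * u).Monic := by
    rw [mul_comm]
    exact monic_mul_leadingCoeff_inv hu
  have hvd : (C (u.leadingCoeff)⁻¹ * u).natDegree = u.natDegree := by
    rw [natDegree_C_mul (inv_ne_zero (leadingCoeff_ne_zero.2 hu))]
  have hvN : xp 2 F (C (u.leadingCoeff)⁻¹ * u) ∈ I * I.map (io F) := by
    rw [hn, xp_mul]
    exact Ideal.mul_mem_left _ _ (Ideal.mem_span_singleton_self _)
  -- finiteness
  have hsur := sur ((I * I.map (io F)).restrictScalars K).mkQ (Submodule.mkQ_surjective _) hvm (by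
    intro h
    rw [← LinearMap.mem_ker, Submodule.ker_mkQ, Submodule.restrictScalars_mem]
    exact (I * I.map (io F)).mul_mem_right h hvN)
  refine codimA (io F) (ioL F) (fun x => rfl) io_io hI (Module.Finite.of_surjective _ hsur) ?_
  have h1 := LinearMap.finrank_le_finrank_of_surjective hsur
  rw [Module.finrank_prod, rank_dlt, hvd] at h1
  omega

end fld

end Run7.h23.Lo
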