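import Pool.Agent.Run7.h23.Lo.Red
import Pool.Agent.Run7.h23.Lo.Dim

/-!
# Lifting functions in an ideal from the reduction, by counting dimensions
-/

set_option autoImplicit false
set_option linter.all false

open Polynomial Pool.Agent.Y160.SE
open scoped Classical

namespace Run7.h23.Lo

section abs

theorem dimcap {K R : Type} [Field K] [AddCommGroup R] [Module K R] (V I : Submodule K R)
    [Module.Finite K V] (hfin : Module.Finite K (R ⧸ I)) :
    Module.finrank K V ≤ Module.finrank K (V ⊓ I : Submodule K R) + Module.finrank K (R ⧸ I) := by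
  have h1 := LinearMap.finrank_range_add_finrank_ker (I.mkQ.comp V.subtype)
  have h2 : LinearMap.ker (I.mkQ.comp V.subtype) = Submodule.comap V.subtype I := by
    rw [LinearMap.ker_comp, Submodule.ker_mkQ]
  have h3 : Module.finrank K (LinearMap.ker (I.mkQ.comp V.subtype)) =
      Module.finrank K (V ⊓ I : Submodule K R) := by
    rw [h2, ← Submodule.map_comap_subtype]
    exact LinearEquiv.finrank_eq (Submodule.equivSubtypeMap V _)
  have h4 := Submodule.finrank_le (LinearMap.range (I.mkQ.comp V.subtype))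
  omega

variable {k : Type} [Field k]

/-- The space `V`: the functions `a` of degree at most `m` with `φ a` in the image of the reduction. -/
noncomputable def VB (b φ : k[X]) (m : ℕ) : Submodule k k[X] where
  carrier := {a | a ∈ degreeLT k (m + 1) ∧ expand k 2 b ∣ derivative (φ * a)}
  zero_mem' := ⟨Submodule.zero_mem _, by simp⟩
  add_mem' := by
    rintro x y ⟨h1, h2⟩ ⟨h3, h4⟩
    refine ⟨Submodule.add_mem _ h1 h3, ?_⟩
    rw [mul_add, derivative_add]
    exact dvd_add h2 h4
  smul_mem' := by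
    rintro c x ⟨h1, h2⟩
    refine ⟨Submodule.smul_mem _ c h1, ?_⟩
    rw [mul_smul_comm, derivative_smul, smul_eq_C_mul]
    exact Dvd.dvd.mul_left h2 _

/-- The complement. -/
noncomputable def cmp (φ : k[X]) (g : ℕ) : degreeLT k g →ₗ[k] k[X] where
  toFun c := φ * (X * expand k 2 (c : k[X]))
  map_add' c d := by
    rw [Submodule.coe_add, map_add]; ring
  map_smul' c d := by
    rw [Submodule.coe_smul, map_smul, RingHom.id_apply, mul_smul_comm, mul_smul_comm]

theorem VB_rank (h2 : (2 : k) = 0) {b u φ : k[X]} {g m : ℕ} (hb : b.Monic) (hbd : b.natDegree = g)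
    (hu : u ≠ 0) (hφ : φ ^ 2 = expand k 2 u) (hcop : IsCoprime u b)
    (hm : u.natDegree + 2 * g ≤ m + 1) :
    Module.Finite k (VB b φ m) ∧ Module.finrank k (VB b φ m) + g ≤ m + 1 := by
  have hφ0 : φ ≠ 0 := sqrt_ne hφ hu
  have hφd := sqrt_deg hφ
  have hle1 : VB b φ m ≤ degreeLT k (m + 1) := fun a ha => ha.1
  haveI hf1 : Module.Finite k (VB b φ m) :=
    Submodule.finiteDimensional_of_le hle1
  refine ⟨hf1, ?_⟩
  have hinj : Function.Injective (cmp φ g) := by
    rw [← LinearMap.ker_eq_bot, LinearMap.ker_eq_bot']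
    intro c hc
    have h1 : φ * (X * expand k 2 (c : k[X])) = 0 := hc
    rw [mul_eq_zero, mul_eq_zero, expand_eq_zero two_pos] at h1
    rcases h1 with h | h | h
    · exact absurd h hφ0
    · exact absurd h X_ne_zero
    · exact Subtype.ext h
  have hr : Module.finrank k (LinearMap.range (cmp φ g)) = g := by
    rw [LinearMap.finrank_range_of_inj hinj, rank_dlt]
  have hle2 : LinearMap.range (cmp φ g) ≤ degreeLT k (m + 1) := by
    rintro _ ⟨⟨c, hc⟩, rfl⟩
    show φ * (X * expand k 2 c) ∈ degreeLT k (m + 1)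
    rw [dlt] at hc ⊢
    rcases hc with hc | hc
    · left; rw [hc]; simp
    · right
      have e1 := natDegree_mul_le (p := φ) (q := X * expand k 2 c)
      have e2 := natDegree_mul_le (p := X) (q := expand k 2 c)
      rw [natDegree_X, natDegree_expand] at e2
      omega
  have hdis : VB b φ m ⊓ LinearMap.range (cmp φ g) = ⊥ := by
    rw [eq_bot_iff]
    rintro x ⟨⟨-, h1⟩, ⟨⟨c, hc⟩, rfl⟩⟩
    have h3 : expand k 2 b ∣ derivative (φ * (φ * (X * expand k 2 c))) := h1
    have h4 : φ * (φ * (X * expand k 2 c)) = expand k 2 0 + X * expand k 2 (u * c) := by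
      rw [map_zero, zero_add, map_mul, ← hφ]; ring
    rw [h4, der_par h2, exp_dvd] at h3
    have h5 : b ∣ c := hcop.symm.dvd_of_dvd_mul_left h3
    have h6 : c = 0 := by
      rw [dlt] at hc
      rcases hc with hc | hc
      · exact hc
      · by_contra h0
        have := natDegree_le_of_dvd h5 h0
        omega
    rw [Submodule.mem_bot]
    show φ * (X * expand k 2 c) = 0
    rw [h6, map_zero, mul_zero, mul_zero]
  have h1 := Submodule.finrank_sup_add_finrank_inf_eq (VB b φ m) (LinearMap.range (cmp φ g))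
  rw [hdis, finrank_bot, hr] at h1
  have h3 := Submodule.finrank_mono (sup_le hle1 hle2)
  rw [rank_dlt] at h3
  omega

end abs

section main

variable {O k K : Type} [CommRing O] [IsDomain O] [IsDiscreteValuationRing O] [Field k] [Field K]
  [Algebra O K] [IsFractionRing O K] {red : O →+* k} {π : O} {g : ℕ}
  {f A B E : O[X]} (D : Dat red π g f A B E)

/-- `u` is the normalised norm of the ideal `I`. -/
structure NN (red : O →+* k) (I : Ideal (CR 2 (f.map (algebraMap O K)))) (u : O[X]) : Prop where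
  prim : u.map red ≠ 0
  eq : I * I.map (io (f.map (algebraMap O K))) =
    Ideal.span {xp 2 (f.map (algebraMap O K)) (u.map (algebraMap O K))}

include D

theorem nn_dvd {I : Ideal (CR 2 (f.map (algebraMap O K)))} {u : O[X]} (hN : NN red I u)
    {h : CR 2 f} (hh : jj K f h ∈ I) : u ∣ nm h := by
  have h1 : jj K f h * io _ (jj K f h) ∈ I * I.map (io (f.map (algebraMap O K))) :=
    Ideal.mul_mem_mul hh (Ideal.mem_map_of_mem _ hh)
  rw [hN.eq, nm_eq, Ideal.mem_span_singleton] at h1
  obtain ⟨z, hz⟩ := h1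
  have h2 := congrArg c0 hz
  rw [c0_xp, c0_xp_mul, nm_map] at h2
  exact gauss_dvd D (K := K) hN.prim ⟨_, h2⟩

theorem nn_rho {I : Ideal (CR 2 (f.map (algebraMap O K)))} {u : O[X]} (hN : NN red I u)
    {φ : k[X]} (hφ : φ ^ 2 = expand k 2 (u.map red)) {m : ℕ}
    {h : CR 2 f} (hh : jj K f h ∈ I) (hm : Le (m + u.natDegree) h) :
    ∃ a : k[X], rho D h = φ * a ∧ a.natDegree ≤ m := by
  obtain ⟨w, hw⟩ := nn_dvd D hN hh
  have h1 := rho_nm D h
  rw [hw, Polynomial.map_mul, map_mul, ← hφ] at h1
  obtain ⟨a, ha⟩ := sq_dvd (Dvd.intro _ h1)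
  refine ⟨a, ha, ?_⟩
  have hφ0 : φ ≠ 0 := sqrt_ne hφ hN.prim
  have h3 : expand k 2 (w.map red) = a ^ 2 := by
    rw [ha, mul_pow] at h1
    exact mul_left_cancel₀ (pow_ne_zero 2 hφ0) h1
  have h4 := congrArg natDegree h3
  rw [natDegree_expand, natDegree_pow] at h4
  have h5 : (w.map red).natDegree ≤ w.natDegree := natDegree_map_le
  by_cases hw0 : w = 0
  · have h7 : w.natDegree = 0 := by rw [hw0, natDegree_zero]
    omega
  have hu0 : u ≠ 0 := by
    rintro rfl
    exact hN.prim (Polynomial.map_zero _)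
  have h6 := (le_iff D.odd).1 hm
  rw [hw, natDegree_mul hu0 hw0] at h6
  omega

theorem jj_smul (c : O) (h : CR 2 f) : jj K f (c • h) = algebraMap O K c • jj K f h := by
  rw [smul_cr, smul_cr, map_mul, crMap_xp, map_C]

theorem rho_smul (c : O) (h : CR 2 f) : rho D (c • h) = red c • rho D h := by
  rw [smul_cr, map_mul, rho_xp, map_C, expand_C, smul_eq_C_mul]

/-- The functions in the ideal. -/
noncomputable def LL (f : O[X]) (I : Ideal (CR 2 (f.map (algebraMap O K)))) (m : ℕ) :
    Submodule O (VV f m) where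
  carrier := {h | jj K f (h : CR 2 f) ∈ I}
  zero_mem' := by
    show jj K f ((0 : VV f m) : CR 2 f) ∈ I
    rw [Submodule.coe_zero, map_zero]
    exact I.zero_mem
  add_mem' := by
    intro x y hx hy
    show jj K f ((x + y : VV f m) : CR 2 f) ∈ I
    rw [Submodule.coe_add, map_add]
    exact I.add_mem hx hy
  smul_mem' := by
    intro c x hx
    show jj K f ((c • x : VV f m) : CR 2 f) ∈ I
    rw [Submodule.coe_smul, smul_cr, map_mul]
    exact I.mul_mem_left _ hx

omit [IsDiscreteValuationRing O] in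
theorem free_VV' (m : ℕ) : Module.Free O (VV f m) := by
  unfold VV
  exact Module.Free.of_equiv (LinearEquiv.ofInjective (Phi f (m / 2 + 1)
    ((m + 2 - f.natDegree) / 2)) (Phi_inj _ _))

/-- The reductions of a basis of the functions in the ideal are linearly independent. -/
theorem lin_ind (I : Ideal (CR 2 (f.map (algebraMap O K)))) (m : ℕ) {n : ℕ}
    (b : Module.Basis (Fin n) O (LL f I m)) :
    LinearIndependent k fun i => rho D ((b i : VV f m) : CR 2 f) := by
  rw [Fintype.linearIndependent_iff]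
  intro c hc i
  choose c' hc' using fun i => D.surj (c i)
  have h1 : rho D (((∑ i, c' i • b i : LL f I m) : VV f m) : CR 2 f) = 0 := by
    rw [← hc]
    push_cast
    rw [map_sum]
    refine Finset.sum_congr rfl fun j _ => ?_
    rw [rho_smul, hc']
  obtain ⟨r, hr⟩ := (rho_zero D).1 h1
  have hπ0 : C π ≠ (0 : O[X]) := C_ne_zero.2 D.irr.ne_zero
  have hrV : r ∈ VV f m := by
    rw [mem_VV D.odd]
    have h2 : Le m (xp 2 f (C π) * r) := by
      rw [← hr, ← mem_VV D.odd]
      exact Subtype.property _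
    rw [Le, c0_xp_mul, c1_xp_mul, natDegree_C_mul D.irr.ne_zero, natDegree_C_mul D.irr.ne_zero,
      mul_eq_zero] at h2
    exact ⟨h2.1, h2.2.imp (fun h => h.resolve_left hπ0) id⟩
  have hrI : jj K f r ∈ I := by
    have h2 : jj K f (((∑ i, c' i • b i : LL f I m) : VV f m) : CR 2 f) ∈ I :=
      (∑ i, c' i • b i : LL f I m).2
    rw [hr, map_mul, crMap_xp, map_C] at h2
    have hπK : algebraMap O K π ≠ 0 := by
      rw [Ne, map_eq_zero_iff _ (IsFractionRing.injective O K)]
      exact D.irr.ne_zero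
    have h3 := I.mul_mem_left (xp 2 _ (C (algebraMap O K π)⁻¹)) h2
    rw [← mul_assoc, ← xp_mul, ← C_mul, inv_mul_cancel₀ hπK, C_1, xp_one, one_mul] at h3
    exact h3
  have h4 : (∑ i, c' i • b i : LL f I m) = π • (⟨⟨r, hrV⟩, hrI⟩ : LL f I m) := by
    apply Subtype.ext
    apply Subtype.ext
    rw [hr, Submodule.coe_smul, Submodule.coe_smul, smul_cr]
  have h5 := congrArg (fun z => b.repr z i) h4
  simp only [map_sum, map_smul, Finsupp.smul_apply, Finsupp.finset_sum_apply,
    Module.Basis.repr_self, smul_eq_mul] at h5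
  rw [Finset.sum_eq_single i] at h5
  · rw [Finsupp.single_eq_same, mul_one] at h5
    rw [← hc', h5, map_mul, (D.ker π).2 dvd_rfl, zero_mul]
  · intro j _ hj
    rw [Finsupp.single_eq_of_ne (Ne.symm hj), mul_zero]
  · intro h; exact absurd (Finset.mem_univ i) h

theorem span_K (I : Ideal (CR 2 (f.map (algebraMap O K)))) (m : ℕ) {n : ℕ}
    (b : Module.Basis (Fin n) O (LL f I m)) :
    Module.finrank K (VV (f.map (algebraMap O K)) m ⊓ I.restrictScalars K :
      Submodule K (CR 2 (f.map (algebraMap O K)))) ≤ n := by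
  have h1 : (VV (f.map (algebraMap O K)) m ⊓ I.restrictScalars K :
      Submodule K (CR 2 (f.map (algebraMap O K)))) ≤
      Submodule.span K (Set.range fun i => jj K f ((b i : VV f m) : CR 2 f)) := by
    rintro z ⟨hz1, hz2⟩
    have hz1' := (mem_VV (D.oddK (K := K))).1 hz1
    have hz2' : z ∈ I := hz2
    obtain ⟨e, h, hh⟩ := jj_clr (f := f) (K := K) D.irr z
    have hhI : jj K f h ∈ I := by
      rw [← hh]; exact I.mul_mem_left _ hz2'
    have hhV : h ∈ VV f m := by
      rw [mem_VV D.odd, ← le_map (algebraMap O K) rfl (IsFractionRing.injective O K), ← hh,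
        ← C_pow]
      have := Le.xp_mul hz1' (a := C (algebraMap O K π ^ e)) (n := 0) (by rw [natDegree_C])
      rwa [zero_add] at this
    have h2 := b.sum_repr ⟨⟨h, hhV⟩, hhI⟩
    have h3 := congrArg (fun z : LL f I m => jj K f ((z : VV f m) : CR 2 f)) h2
    simp only at h3
    push_cast at h3
    rw [map_sum, ← hh] at h3
    have hπK : algebraMap O K π ≠ 0 := by
      rw [Ne, map_eq_zero_iff _ (IsFractionRing.injective O K)]
      exact D.irr.ne_zero
    have h4 : z = (algebraMap O K π ^ e)⁻¹ • (xp 2 _ (C (algebraMap O K π) ^ e) * z) := by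
      rw [smul_cr, ← mul_assoc, ← xp_mul, ← C_pow, ← C_mul, inv_mul_cancel₀ (pow_ne_zero _ hπK),
        C_1, xp_one, one_mul]
    rw [h4, ← h3]
    refine Submodule.smul_mem _ _ (Submodule.sum_mem _ fun i _ => ?_)
    rw [jj_smul D]
    exact Submodule.smul_mem _ _ (Submodule.subset_span ⟨i, rfl⟩)
  haveI : Module.Finite K (Submodule.span K
      (Set.range fun i => jj K f ((b i : VV f m) : CR 2 f))) :=
    FiniteDimensional.span_of_finite K (Set.finite_range _)
  refine (Submodule.finrank_mono h1).trans ?_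
  refine (finrank_range_le_card _).trans ?_
  rw [Fintype.card_fin]

/-- Lifting functions of the ideal. -/
theorem lift_ideal [IsDedekindDomain (CR 2 (f.map (algebraMap O K)))]
    {I : Ideal (CR 2 (f.map (algebraMap O K)))} (hI : I ≠ ⊥) {u : O[X]}
    (hN : NN red I u) {φ : k[X]} (hφ : φ ^ 2 = expand k 2 (u.map red))
    (hcop : IsCoprime (u.map red) (B.map red)) {m : ℕ}
    (hm : (u.map red).natDegree + 2 * g ≤ m + 1) {a : k[X]} (ha : a.natDegree ≤ m)
    (hB : expand k 2 (B.map red) ∣ derivative (φ * a)) :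
    ∃ h : CR 2 f, Le (m + u.natDegree) h ∧ jj K f h ∈ I ∧ rho D h = φ * a := by
  set M := m + u.natDegree with hM
  haveI : Module.Free O (VV f M) := free_VV' D M
  obtain ⟨n, b⟩ := Submodule.basisOfPid (Module.finBasis O (VV f M)) (LL f I M)
  have hu0 : u ≠ 0 := by
    rintro rfl
    exact hN.prim (Polynomial.map_zero _)
  have hinj := IsFractionRing.injective O K
  have hu0' : u.map (algebraMap O K) ≠ 0 := by
    rw [Ne, Polynomial.map_eq_zero_iff hinj]
    exact hu0
  -- the rank
  obtain ⟨hf1, hc⟩ := codim hI hu0' hN.eq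
  have h1 := dimcap (VV (f.map (algebraMap O K)) M) (I.restrictScalars K) hf1
  have h2 := span_K D I M b
  have hfd : (f.map (algebraMap O K)).natDegree = 2 * g + 1 := by
    rw [natDegree_map_eq_of_injective hinj, D.mon_deg.2]
  have h3 := rank_VV (m := M) hfd (by omega)
  rw [natDegree_map_eq_of_injective hinj] at hc
  -- the space `V`
  obtain ⟨hf2, h4⟩ := VB_rank D.two D.monB' D.degB' hN.prim hφ hcop hm
  have hli := lin_ind D I M b
  have hφ0 : φ ≠ 0 := sqrt_ne hφ hN.prim
  set W := Submodule.span k (Set.range fun i => rho D ((b i : VV f M) : CR 2 f)) with hW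
  have hWr : Module.finrank k W = n := by
    rw [hW, finrank_span_eq_card hli, Fintype.card_fin]
  set μ : k[X] →ₗ[k] k[X] := LinearMap.mulLeft k φ with hμ
  have hWV : W ≤ (VB (B.map red) φ m).map μ := by
    rw [hW, Submodule.span_le]
    rintro _ ⟨i, rfl⟩
    have e1 : Le M ((b i : VV f M) : CR 2 f) := (mem_VV D.odd).1 (Subtype.property _)
    obtain ⟨a, ha1, ha2⟩ := nn_rho D hN hφ (b i).2 e1
    refine ⟨a, ⟨?_, ?_⟩, ?_⟩
    · rw [dlt]; right; omega
    · rw [← ha1]; exact der_rho D _
    · rw [hμ, LinearMap.mulLeft_apply]; exact ha1.symm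
  have h5 : Module.finrank k ((VB (B.map red) φ m).map μ) ≤ Module.finrank k (VB (B.map red) φ m) :=
    Submodule.finrank_map_le _ _
  have h6 : W = (VB (B.map red) φ m).map μ :=
    Submodule.eq_of_le_of_finrank_le hWV (by omega)
  have h7 : φ * a ∈ W := by
    rw [h6]
    refine ⟨a, ⟨?_, hB⟩, ?_⟩
    · rw [dlt]; right; omega
    · rw [hμ, LinearMap.mulLeft_apply]
  rw [hW, Submodule.mem_span_range_iff_exists_fun] at h7
  obtain ⟨c, hc⟩ := h7
  choose c' hc' using fun i => D.surj (c i)
  refine ⟨(((∑ i, c' i • b i : LL f I M) : VV f M) : CR 2 f), ?_, ?_, ?_⟩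
  · exact (mem_VV D.odd).1 (Subtype.property _)
  · exact (∑ i, c' i • b i : LL f I M).2
  · rw [← hc]
    push_cast
    rw [map_sum]
    refine Finset.sum_congr rfl fun j _ => ?_
    rw [rho_smul, hc']

end main

end Run7.h23.Lo
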