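import Pool.Agent.Run7.h23.Lo.Red

/-!
# The ideals of `O[x, y] / (y ^ 2 - f)` modulo `y + A` are principal
-/

set_option autoImplicit false
set_option linter.all false

open Polynomial Pool.Agent.Y160.SE
open scoped Classical

namespace Run7.h23.Lo

section

variable {O k K : Type} [CommRing O] [IsDomain O] [IsDiscreteValuationRing O] [Field k] [Field K]
  [Algebra O K] [IsFractionRing O K] {red : O →+* k} {π : O} {g : ℕ}
  {f A B E : O[X]} (D : Dat red π g f A B E)

/-- Changing `A`. -/
theorem Dat.shift {O k : Type} [CommRing O] [IsDomain O] [Field k] {red : O →+* k} {π : O} {g : ℕ}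
    {f A B E : O[X]} (D : Dat red π g f A B E) (i : ℕ) :
    Dat red π g f (A + C (π ^ (i + 1))) B (E - C (2 * π ^ i) * A - C (π ^ (2 * i + 1))) where
  surj := D.surj
  irr := D.irr
  ker := D.ker
  two := D.two
  sq := D.sq
  eq := by
    conv_lhs => rw [D.eq]
    simp only [C_mul, C_pow]
    have : (C (2 : O) : O[X]) = 2 := rfl
    rw [this]
    ring
  degA := by
    refine (natDegree_add_le _ _).trans (max_le D.degA ?_)
    rw [natDegree_C]
    exact Nat.zero_le _
  monB := D.monB
  degB := D.degB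
  degE := by
    refine (natDegree_sub_le _ _).trans (max_le ((natDegree_sub_le _ _).trans (max_le D.degE ?_)) ?_)
    · refine (natDegree_C_mul_le _ _).trans (D.degA.trans ?_)
      omega
    · rw [natDegree_C]
      exact Nat.zero_le _
  cop := by
    have h1 : red π = 0 := (D.ker π).2 dvd_rfl
    have h2 : red 2 = 0 := by
      rw [map_ofNat]; exact D.two
    have : (E - C (2 * π ^ i) * A - C (π ^ (2 * i + 1))).map red = E.map red := by
      rw [Polynomial.map_sub, Polynomial.map_sub, Polynomial.map_mul, map_C, map_C, map_mul, h2,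
        zero_mul, C_0, zero_mul, sub_zero, map_pow, h1, zero_pow (Nat.succ_ne_zero _), C_0, sub_zero]
    rw [this]
    exact D.cop

include D

/-- The polynomial `x B ^ 2 + π E = f - A ^ 2`. -/
theorem h0_eq : f - A ^ 2 = X * B ^ 2 + C π * E := by
  conv_lhs => rw [D.eq]
  ring

theorem h0_monic : (f - A ^ 2).Monic := by
  have h2 : (X * B ^ 2).natDegree = 2 * g + 1 := by
    rw [monic_X.natDegree_mul (D.monB.pow 2), natDegree_X, D.monB.natDegree_pow, D.degB]
    omega
  rw [h0_eq D]
  refine (monic_X.mul (D.monB.pow 2)).add_of_left (degree_lt_degree ?_)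
  rw [h2]
  have e2 := natDegree_C_mul_le π E
  have e5 := D.degE
  omega

/-- Nakayama. -/
theorem nak {𝔞 : Ideal O[X]} (h0 : f - A ^ 2 ∈ 𝔞) {r : O[X]} (hr : C π * (1 + C π * r) ∈ 𝔞) :
    C π ∈ 𝔞 := by
  have hfin : Module.Finite O (O[X] ⧸ 𝔞) := by
    have hm := h0_monic D
    refine Module.Finite.of_surjective ((Ideal.Quotient.mkₐ O 𝔞).toLinearMap.comp
      (degreeLT O (f - A ^ 2).natDegree).subtype) ?_
    intro z
    obtain ⟨p, rfl⟩ := Ideal.Quotient.mk_surjective z
    refine ⟨⟨p %ₘ (f - A ^ 2), ?_⟩, ?_⟩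
    · rw [mem_degreeLT, ← degree_eq_natDegree hm.ne_zero]
      exact degree_modByMonic_lt _ hm
    · show Ideal.Quotient.mk 𝔞 (p %ₘ (f - A ^ 2)) = Ideal.Quotient.mk 𝔞 p
      rw [Ideal.Quotient.eq]
      have h1 := modByMonic_add_div p (f - A ^ 2)
      have h2 : p %ₘ (f - A ^ 2) - p = -((p /ₘ (f - A ^ 2)) * (f - A ^ 2)) := by
        linear_combination h1
      rw [h2]
      exact 𝔞.neg_mem (𝔞.mul_mem_left _ h0)
  set N : Submodule O (O[X] ⧸ 𝔞) := LinearMap.range (π • (LinearMap.id : (O[X] ⧸ 𝔞) →ₗ[O] _)) with hN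
  have hNfg : N.FG := (isNoetherian_of_isNoetherianRing_of_finite O (O[X] ⧸ 𝔞)).noetherian N
  have hle : N ≤ Ideal.span {π} • N := by
    rintro _ ⟨z, rfl⟩
    obtain ⟨p, rfl⟩ := Ideal.Quotient.mk_surjective z
    have h1 : (π • (LinearMap.id : (O[X] ⧸ 𝔞) →ₗ[O] _)) (Ideal.Quotient.mk 𝔞 p) =
        π • ((π • (LinearMap.id : (O[X] ⧸ 𝔞) →ₗ[O] _)) (Ideal.Quotient.mk 𝔞 (-(r * p)))) := by
      rw [LinearMap.smul_apply, LinearMap.smul_apply, LinearMap.id_apply, LinearMap.id_apply]
      have e : ∀ (c : O) (q : O[X]), c • Ideal.Quotient.mk 𝔞 q = Ideal.Quotient.mk 𝔞 (C c * q) := by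
        intro c q
        rw [← smul_eq_C_mul]
        rfl
      rw [e, e, e, Ideal.Quotient.eq]
      have h2 : C π * p - C π * (C π * -(r * p)) = p * (C π * (1 + C π * r)) := by ring
      rw [h2]
      exact 𝔞.mul_mem_left _ hr
    rw [h1]
    exact Submodule.smul_mem_smul (Ideal.mem_span_singleton_self π) ⟨_, rfl⟩
  have hjac : Ideal.span {π} ≤ Ideal.jacobson ⊥ := by
    rw [IsLocalRing.jacobson_eq_maximalIdeal _ bot_ne_top, Ideal.span_singleton_le_iff_mem,
      IsLocalRing.mem_maximalIdeal]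
    exact D.irr.not_isUnit
  have hbot := Submodule.eq_bot_of_le_smul_of_le_jacobson_bot _ _ hNfg hle hjac
  have h3 : (π • (LinearMap.id : (O[X] ⧸ 𝔞) →ₗ[O] _)) (Ideal.Quotient.mk 𝔞 1) ∈ N := ⟨_, rfl⟩
  rw [hbot, Submodule.mem_bot, LinearMap.smul_apply, LinearMap.id_apply] at h3
  have h4 : π • Ideal.Quotient.mk 𝔞 (1 : O[X]) = Ideal.Quotient.mk 𝔞 (C π * 1) := by
    rw [← smul_eq_C_mul]; rfl
  rw [h4, mul_one, Ideal.Quotient.eq_zero_iff_mem] at h3
  exact h3

theorem unit_of_red {c : O} (h : red c ≠ 0) : IsUnit c := by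
  by_contra hc
  apply h
  have h1 : c ∈ IsLocalRing.maximalIdeal O := (IsLocalRing.mem_maximalIdeal c).2 hc
  rw [D.irr.maximalIdeal_eq, Ideal.mem_span_singleton] at h1
  exact (D.ker c).2 h1

/-- The primes over `f - A ^ 2`. -/
theorem tq {𝔮 : Ideal O[X]} (hq : 𝔮.IsPrime) (h0 : f - A ^ 2 ∈ 𝔮) :
    ∃ q ∈ 𝔮, 𝔮 ≤ Ideal.span {q, f - A ^ 2} := by
  have hm := h0_monic D
  by_cases hπ : C π ∈ 𝔮
  · -- over `π`
    have hker : RingHom.ker (mapRingHom red) ≤ 𝔮 := by
      intro p hp
      rw [RingHom.mem_ker, coe_mapRingHom, D.map_zero] at hp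
      obtain ⟨c, rfl⟩ := hp
      exact 𝔮.mul_mem_right _ hπ
    have hsur : Function.Surjective (mapRingHom red) := map_surjective red D.surj
    haveI hprime : (𝔮.map (mapRingHom red)).IsPrime :=
      Ideal.map_isPrime_of_surjective hsur hker
    have hmem : ∀ p : O[X], p.map red ∈ 𝔮.map (mapRingHom red) → p ∈ 𝔮 := by
      intro p hp
      obtain ⟨p', hp', hpp⟩ := (Ideal.mem_map_iff_of_surjective _ hsur).1 hp
      have h1 : p - p' ∈ 𝔮 := by
        apply hker
        rw [RingHom.mem_ker, map_sub, coe_mapRingHom, ← hpp, coe_mapRingHom, sub_self]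
      have := 𝔮.add_mem h1 hp'
      rwa [sub_add_cancel] at this
    obtain ⟨p, hp⟩ := (IsPrincipalIdealRing.principal (𝔮.map (mapRingHom red))).principal
    rw [Ideal.submodule_span_eq] at hp
    have h1 : (f - A ^ 2).map red ∈ 𝔮.map (mapRingHom red) := Ideal.mem_map_of_mem _ h0
    have h2 : (f - A ^ 2).map red = X * B.map red ^ 2 := by
      rw [h0_eq D, Polynomial.map_add, Polynomial.map_mul, Polynomial.map_mul, Polynomial.map_pow,
        map_X, map_C, (D.ker π).2 dvd_rfl, C_0, zero_mul, add_zero]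
    rw [h2] at h1
    have hpp : Prime p := by
      rw [hp] at hprime
      refine (Ideal.span_singleton_prime ?_).1 hprime
      rintro rfl
      rw [hp, Ideal.span_singleton_eq_bot.2 rfl, Ideal.mem_bot] at h1
      exact mul_ne_zero X_ne_zero (pow_ne_zero 2 D.monB'.ne_zero) h1
    -- a good generator
    obtain ⟨q, α, β, hq1, hq2, hq3⟩ : ∃ q α β : O[X], q ∈ 𝔮 ∧
        𝔮.map (mapRingHom red) = Ideal.span {q.map red} ∧ X * B ^ 2 = q * α + C π ^ 2 * β := by
      rcases hprime.mem_or_mem h1 with h3 | h3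
      · refine ⟨X, B ^ 2, 0, hmem X (by rwa [map_X]), ?_, by ring⟩
        rw [hp, Ideal.span_singleton_eq_span_singleton, map_X]
        rw [hp, Ideal.mem_span_singleton] at h3
        exact (hpp.irreducible.dvd_irreducible_iff_associated irreducible_X).1 h3
      · have h4 : B.map red ∈ 𝔮.map (mapRingHom red) := hprime.mem_of_pow_mem 2 h3
        obtain ⟨q, hq'⟩ := hsur p
        rw [coe_mapRingHom] at hq'
        rw [hp, Ideal.mem_span_singleton] at h4
        obtain ⟨c, hc⟩ := h4
        obtain ⟨c', hc'⟩ := hsur c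
        rw [coe_mapRingHom] at hc'
        have h5 : (B - q * c').map red = 0 := by
          rw [Polynomial.map_sub, Polynomial.map_mul, hq', hc', hc, sub_self]
        rw [D.map_zero] at h5
        obtain ⟨b, hb⟩ := h5
        refine ⟨q, X * c' * (q * c' + 2 * (C π * b)), X * b ^ 2, hmem q ?_, ?_, ?_⟩
        · rw [hp, hq']; exact Ideal.mem_span_singleton_self _
        · rw [hp, hq']
        · have h6 : B = q * c' + C π * b := by linear_combination hb
          rw [h6]; ring
    refine ⟨q, hq1, ?_⟩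
    -- `π` is in the ideal
    have hw : IsCoprime ((E + C π * β).map red) (q.map red) := by
      have e1 : (E + C π * β).map red = E.map red := by
        rw [Polynomial.map_add, Polynomial.map_mul, map_C, (D.ker π).2 dvd_rfl, C_0, zero_mul,
          add_zero]
      rw [e1]
      have e2 : q.map red ∣ X * B.map red ^ 2 := by
        rw [hq2, Ideal.mem_span_singleton] at h1
        exact h1
      have e3 : IsCoprime (E.map red) (X * B.map red ^ 2) :=
        (IsCoprime.mul_right_iff.2 ⟨(IsCoprime.mul_right_iff.1 D.cop).1,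
          (IsCoprime.mul_right_iff.1 D.cop).2.pow_right⟩)
      exact e3.of_isCoprime_of_dvd_right e2
    obtain ⟨s, t, hst⟩ := hw
    obtain ⟨s', rfl⟩ := map_surjective red D.surj s
    obtain ⟨t', rfl⟩ := map_surjective red D.surj t
    have h6 : (s' * (E + C π * β) + t' * q - 1).map red = 0 := by
      rw [Polynomial.map_sub, Polynomial.map_add, Polynomial.map_mul, Polynomial.map_mul, hst,
        Polynomial.map_one, sub_self]
    rw [D.map_zero] at h6
    obtain ⟨r, hr⟩ := h6
    have h7 : C π ∈ Ideal.span {q, f - A ^ 2} := by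
      refine nak D (r := r) (Ideal.subset_span (by simp)) ?_
      rw [Ideal.mem_span_pair]
      refine ⟨C π * t' - s' * α, s', ?_⟩
      have h8 := h0_eq D
      rw [h8, hq3]
      linear_combination (C π) * hr
    intro z hz
    have h8 : z.map red ∈ 𝔮.map (mapRingHom red) := Ideal.mem_map_of_mem _ hz
    rw [hq2, Ideal.mem_span_singleton] at h8
    obtain ⟨c, hc⟩ := h8
    obtain ⟨c', rfl⟩ := map_surjective red D.surj c
    have h9 : (z - q * c').map red = 0 := by
      rw [Polynomial.map_sub, Polynomial.map_mul, hc, sub_self]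
    rw [D.map_zero] at h9
    obtain ⟨d, hd⟩ := h9
    have h10 : z = c' * q + d * C π := by linear_combination hd
    rw [h10]
    exact Ideal.add_mem _ (Ideal.mul_mem_left _ _ (Ideal.subset_span (by simp)))
      (Ideal.mul_mem_left _ _ h7)
  · -- not over `π`
    have hne : 𝔮 ≠ ⊥ := by
      rintro rfl
      exact hm.ne_zero h0
    obtain ⟨p, hp, hpp⟩ := Ideal.IsPrime.exists_mem_prime_of_ne_bot hq hne
    refine ⟨p, hp, fun z hz => ?_⟩
    have hdvd : p ∣ z := by
      by_contra hnd
      set K' := FractionRing O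
      have hinj := IsFractionRing.injective O K'
      have hp0 : p.map red ≠ 0 := by
        intro h
        rw [D.map_zero] at h
        obtain ⟨c, hc⟩ := h
        rcases hpp.irreducible.isUnit_or_isUnit hc with h1 | h1
        · rw [isUnit_C] at h1
          exact D.irr.not_isUnit h1
        · apply hπ
          obtain ⟨v, hv⟩ := h1.exists_right_inv
          have : C π = p * v := by rw [hc, mul_assoc, hv, mul_one]
          rw [this]
          exact 𝔮.mul_mem_right _ hp
      have hG0 : EuclideanDomain.gcd (p.map (algebraMap O K')) (z.map (algebraMap O K')) ≠ 0 := by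
        intro h
        rw [EuclideanDomain.gcd_eq_zero_iff] at h
        exact hpp.ne_zero ((Polynomial.map_eq_zero_iff hinj).1 h.1)
      obtain ⟨c, G, hc, hG, hGe⟩ := primP D hG0
      have hGp : G ∣ p := by
        refine gauss_dvd D (K := K') hG ?_
        have h1 := EuclideanDomain.gcd_dvd_left (p.map (algebraMap O K')) (z.map (algebraMap O K'))
        rw [hGe] at h1
        exact (dvd_mul_left _ _).trans h1
      have hGz : G ∣ z := by
        refine gauss_dvd D (K := K') hG ?_
        have h1 := EuclideanDomain.gcd_dvd_right (p.map (algebraMap O K')) (z.map (algebraMap O K'))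
        rw [hGe] at h1
        exact (dvd_mul_left _ _).trans h1
      obtain ⟨c', hc'⟩ := hGp
      rcases hpp.irreducible.isUnit_or_isUnit hc' with h1 | h1
      · -- the gcd is a unit
        have h2 : IsUnit (EuclideanDomain.gcd (p.map (algebraMap O K'))
            (z.map (algebraMap O K'))) := by
          rw [hGe]
          exact (isUnit_C.2 (isUnit_iff_ne_zero.2 hc)).mul (h1.map (mapRingHom (algebraMap O K')))
        obtain ⟨a, b, hab⟩ := EuclideanDomain.gcd_isUnit_iff.1 h2
        obtain ⟨n, a', ha'⟩ := clrP D.irr a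
        obtain ⟨m, b', hb'⟩ := clrP D.irr b
        have h3 : C π ^ (n + m) = C π ^ m * a' * p + C π ^ n * b' * z := by
          apply Polynomial.map_injective _ hinj
          rw [Polynomial.map_add, Polynomial.map_mul, Polynomial.map_mul, Polynomial.map_mul,
            Polynomial.map_mul, Polynomial.map_pow, Polynomial.map_pow, Polynomial.map_pow, map_C,
            ← ha', ← hb', pow_add]
          linear_combination (-(C (algebraMap O K' π) ^ n * C (algebraMap O K' π) ^ m)) * hab
        have h4 : C π ^ (n + m) ∈ 𝔮 := by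
          rw [h3]
          exact 𝔮.add_mem (𝔮.mul_mem_left _ hp) (𝔮.mul_mem_left _ hz)
        exact hπ (hq.mem_of_pow_mem _ h4)
      · -- `p` divides the gcd
        apply hnd
        obtain ⟨v, hv⟩ := h1.exists_right_inv
        have h2 : p ∣ G := ⟨v, by rw [hc', mul_assoc, hv, mul_one]⟩
        exact h2.trans hGz
    exact Ideal.span_mono (Set.singleton_subset_iff.2 (Set.mem_insert _ _))
      (Ideal.mem_span_singleton.2 hdvd)

/-- The ideals modulo `y + A` are principal. -/
theorem pir (I : Ideal (CR 2 f)) : ∃ e ∈ I, ∀ h ∈ I, ∃ r z : CR 2 f,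
    h = r * e + (yy 2 f + xp 2 f A) * z := by
  set Y : CR 2 f := yy 2 f + xp 2 f A with hY
  have hY2 : Y * (yy 2 f - xp 2 f A) = xp 2 f (f - A ^ 2) := by
    have h := yy_pow 2 f
    rw [xp_sub, xp_pow, hY]
    linear_combination h
  have hel : ∀ h : CR 2 f, h = xp 2 f (c0 h - c1 h * A) + Y * xp 2 f (c1 h) := by
    intro h
    conv_lhs => rw [← el_eq h, el]
    rw [xp_sub, xp_mul, hY]; ring
  have hP : IsPrincipalIdealRing (CR 2 f ⧸ Ideal.span {Y}) := by
    apply IsPrincipalIdealRing.of_prime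
    intro P hP
    set P' : Ideal (CR 2 f) := P.comap (Ideal.Quotient.mk (Ideal.span {Y})) with hP'
    haveI : P'.IsPrime := Ideal.comap_isPrime _ P
    have hYP : Y ∈ P' := by
      rw [hP', Ideal.mem_comap, Ideal.Quotient.eq_zero_iff_mem.2 (Ideal.mem_span_singleton_self Y)]
      exact P.zero_mem
    set 𝔮 : Ideal O[X] := P'.comap (AdjoinRoot.of (X ^ 2 - C f : O[X][X])) with h𝔮
    haveI : 𝔮.IsPrime := Ideal.comap_isPrime _ P'
    have h0 : f - A ^ 2 ∈ 𝔮 := by
      rw [h𝔮, Ideal.mem_comap]
      show xp 2 f (f - A ^ 2) ∈ P'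
      rw [← hY2]
      exact P'.mul_mem_right _ hYP
    obtain ⟨q, hq, hle⟩ := tq D inferInstance h0
    refine ⟨Ideal.Quotient.mk _ (xp 2 f q), ?_⟩
    rw [Ideal.submodule_span_eq]
    apply le_antisymm
    · intro z hz
      obtain ⟨h, rfl⟩ := Ideal.Quotient.mk_surjective z
      have hh : h ∈ P' := hz
      have h1 : c0 h - c1 h * A ∈ 𝔮 := by
        rw [h𝔮, Ideal.mem_comap]
        show xp 2 f (c0 h - c1 h * A) ∈ P'
        have h2 : xp 2 f (c0 h - c1 h * A) = h - Y * xp 2 f (c1 h) := by
          linear_combination -(hel h)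
        rw [h2]
        exact P'.sub_mem hh (P'.mul_mem_right _ hYP)
      obtain ⟨a, b, hab⟩ := Ideal.mem_span_pair.1 (hle h1)
      rw [Ideal.mem_span_singleton]
      refine ⟨Ideal.Quotient.mk _ (xp 2 f a), ?_⟩
      rw [← map_mul, Ideal.Quotient.eq, Ideal.mem_span_singleton]
      refine ⟨(yy 2 f - xp 2 f A) * xp 2 f b + xp 2 f (c1 h), ?_⟩
      have h3 := hel h
      rw [← hab, xp_add, xp_mul, xp_mul, ← hY2] at h3
      linear_combination h3
    · rw [Ideal.span_singleton_le_iff_mem]
      exact hq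
  obtain ⟨e', he'⟩ := (hP.principal (I.map (Ideal.Quotient.mk (Ideal.span {Y})))).principal
  rw [Ideal.submodule_span_eq] at he'
  have h1 : e' ∈ I.map (Ideal.Quotient.mk (Ideal.span {Y})) := by
    rw [he']; exact Ideal.mem_span_singleton_self _
  obtain ⟨e, he, hee⟩ := (Ideal.mem_map_iff_of_surjective _ Ideal.Quotient.mk_surjective).1 h1
  refine ⟨e, he, fun h hh => ?_⟩
  have h2 : Ideal.Quotient.mk (Ideal.span {Y}) h ∈ I.map (Ideal.Quotient.mk (Ideal.span {Y})) :=
    Ideal.mem_map_of_mem _ hh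
  rw [he', Ideal.mem_span_singleton, ← hee] at h2
  obtain ⟨r', hr'⟩ := h2
  obtain ⟨r, rfl⟩ := Ideal.Quotient.mk_surjective r'
  rw [← map_mul, Ideal.Quotient.eq, Ideal.mem_span_singleton] at hr'
  obtain ⟨z, hz⟩ := hr'
  exact ⟨r, z, by linear_combination hz⟩

end

end Run7.h23.Lo
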