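import Pool.Agent.Run7.h23.Lo.CC
import Pool.Agent.Run7.h23.Lo.Tq
import Pool.Agent.Y494.SE.Chi

/-!
# Ideal classes: good representatives
-/

set_option autoImplicit false
set_option linter.all false

open Polynomial Pool.Agent.Y160.SE
open scoped Classical

namespace Run7.h23.Lo

section ideals

variable {R : Type} [CommRing R] [IsDedekindDomain R]

/-- The residual ideal. -/
theorem exists_res {I : Ideal R} {h : R} (hI : I ≠ ⊥) (h0 : h ≠ 0) (hh : h ∈ I) :
    ∃ I' : Ideal R, I' ≠ ⊥ ∧ I * I' = Ideal.span {h} := by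
  obtain ⟨I', hI'⟩ := Ideal.dvd_iff_le.2 ((Ideal.span_singleton_le_iff_mem I).2 hh)
  refine ⟨I', ?_, hI'.symm⟩
  rintro rfl
  rw [Ideal.mul_bot, Ideal.span_singleton_eq_bot] at hI'
  exact h0 hI'

theorem eqv_of_mul {I I' J : Ideal R} {h u : R} (hI : I ≠ ⊥) (h0 : h ≠ 0) (hu : u ≠ 0)
    (h1 : I * I' = Ideal.span {h}) (h2 : I * J = Ideal.span {u}) : Eqv I' J := by
  refine ⟨u, h, hu, h0, ?_⟩
  rw [← h1, ← h2]; ring

end ideals

section main

variable {O k K : Type} [CommRing O] [IsDomain O] [IsDiscreteValuationRing O] [Field k] [Field K]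
  [Algebra O K] [IsFractionRing O K] {red : O →+* k} {π : O} {g : ℕ}
  {f A B E : O[X]} (D : Dat red π g f A B E)

include D

theorem nn_ne {I : Ideal (CR 2 (f.map (algebraMap O K)))} {u : O[X]} (h : NN red I u) :
    xp 2 (f.map (algebraMap O K)) (u.map (algebraMap O K)) ≠ 0 := by
  intro h0
  rw [← xp_zero] at h0
  have h1 := xp_inj' h0
  rw [Polynomial.map_eq_zero_iff (IsFractionRing.injective O K)] at h1
  apply h.prim
  rw [h1, Polynomial.map_zero]

theorem exists_NN (hG : Good 2 (-1 : K) (f.map (algebraMap O K)))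
    {I : Ideal (CR 2 (f.map (algebraMap O K)))} (hI : I ≠ ⊥) : ∃ u : O[X], NN red I u := by
  obtain ⟨⟨p, hp, h⟩, -⟩ := hyps.nmi 2 K (-1) _ hG I hI
  rw [Finset.prod_range_succ, Finset.prod_range_one, pow_zero, pow_one] at h
  have h1 : I.map (1 : CR 2 (f.map (algebraMap O K)) →+* CR 2 (f.map (algebraMap O K))) = I :=
    Ideal.map_id I
  rw [h1] at h
  obtain ⟨c, u, hc, hu, rfl⟩ := primP D hp.ne_zero
  refine ⟨u, hu, ?_⟩
  have h2 : I.map (io (f.map (algebraMap O K))) = I.map hG.tw := rfl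
  rw [h2, h, xp_mul]
  exact Ideal.span_singleton_mul_left_unit ((isUnit_C.2 (isUnit_iff_ne_zero.2 hc)).map
    (AdjoinRoot.of _)) _

theorem nn_io {I : Ideal (CR 2 (f.map (algebraMap O K)))} {u : O[X]} (h : NN red I u) :
    NN red (I.map (io (f.map (algebraMap O K)))) u := by
  refine ⟨h.prim, ?_⟩
  rw [Ideal.map_map]
  have h7 : (io (f.map (algebraMap O K))).comp
      (io (f.map (algebraMap O K))) = RingHom.id _ := RingHom.ext io_io
  rw [h7, Ideal.map_id, mul_comm]
  exact h.eq

theorem nn_mul {I J : Ideal (CR 2 (f.map (algebraMap O K)))} {u v : O[X]} (h : NN red I u)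
    (h' : NN red J v) : NN red (I * J) (u * v) := by
  refine ⟨?_, ?_⟩
  · rw [Polynomial.map_mul]
    exact mul_ne_zero h.prim h'.prim
  · rw [Ideal.map_mul, Polynomial.map_mul, xp_mul, ← Ideal.span_singleton_mul_span_singleton,
      ← h.eq, ← h'.eq]
    ring

theorem red_unit {c : O} (h : IsUnit c) : red c ≠ 0 := (h.map red).ne_zero

/-- The norm of a generator. -/
theorem nn_res {I I' : Ideal (CR 2 (f.map (algebraMap O K)))} {u u' : O[X]} (hN : NN red I u)
    (hN' : NN red I' u') {h : CR 2 f} (hh : I * I' = Ideal.span {jj K f h}) (hr : rho D h ≠ 0) :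
    ∃ c : O, red c ≠ 0 ∧ nm h = C c * (u * u') := by
  have h1 : Ideal.span {xp 2 (f.map (algebraMap O K)) ((nm h).map (algebraMap O K))} =
      Ideal.span {xp 2 (f.map (algebraMap O K)) ((u * u').map (algebraMap O K))} := by
    rw [Polynomial.map_mul, xp_mul, ← Ideal.span_singleton_mul_span_singleton, ← hN.eq, ← hN'.eq,
      ← nm_map (algebraMap O K) rfl, ← nm_eq, ← Ideal.span_singleton_mul_span_singleton, ← hh]
    have h2 : Ideal.span {io (f.map (algebraMap O K)) (jj K f h)} =
        (I * I').map (io (f.map (algebraMap O K))) := by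
      rw [hh, Ideal.map_span, Set.image_singleton]
    rw [h2, Ideal.map_mul]
    ring
  have hdv : ∀ p q : O[X], p.map red ≠ 0 →
      Ideal.span {xp 2 (f.map (algebraMap O K)) (q.map (algebraMap O K))} ≤
      Ideal.span {xp 2 (f.map (algebraMap O K)) (p.map (algebraMap O K))} → p ∣ q := by
    intro p q hp hle
    rw [Ideal.span_singleton_le_span_singleton] at hle
    obtain ⟨z, hz⟩ := hle
    have h2 := congrArg c0 hz
    rw [c0_xp, c0_xp_mul] at h2
    exact gauss_dvd D (K := K) hp ⟨_, h2⟩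
  have hp1 : (u * u').map red ≠ 0 := by
    rw [Polynomial.map_mul]; exact mul_ne_zero hN.prim hN'.prim
  have hp2 : (nm h).map red ≠ 0 := by
    intro h0
    have h3 := rho_nm D h
    rw [h0, map_zero] at h3
    exact hr ((pow_eq_zero_iff two_ne_zero).1 h3.symm)
  have h3 := hdv _ _ hp1 h1.le
  have h4 := hdv _ _ hp2 h1.ge
  obtain ⟨v, hv⟩ := associated_of_dvd_dvd h3 h4
  obtain ⟨c, hc, hcv⟩ := Polynomial.isUnit_iff.1 v.isUnit
  refine ⟨c, red_unit D hc, ?_⟩
  rw [← hv, ← hcv, mul_comm]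

/-- The reduction of a generator. -/
theorem nn_rho_res {I I' : Ideal (CR 2 (f.map (algebraMap O K)))} {u u' : O[X]} (hN : NN red I u)
    (hN' : NN red I' u') {h : CR 2 f} (hh : I * I' = Ideal.span {jj K f h}) (hr : rho D h ≠ 0)
    {φ : k[X]} (hφ : φ ^ 2 = expand k 2 (u.map red * u'.map red)) :
    ∃ c : k, c ≠ 0 ∧ rho D h = C c * φ := by
  obtain ⟨c, hc, hcn⟩ := nn_res D hN hN' hh hr
  obtain ⟨b, hb⟩ := D.sq (red c)
  have hb0 : b ≠ 0 := by
    rintro rfl
    rw [zero_pow two_ne_zero] at hb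
    exact hc hb.symm
  refine ⟨b, hb0, ?_⟩
  have h1 := rho_nm D h
  rw [hcn, Polynomial.map_mul, Polynomial.map_mul, map_C, map_mul, expand_C, ← hφ, ← hb] at h1
  have h2 : (C b * φ - rho D h) ^ 2 = 0 := by
    have := two_poly D.two
    rw [C_pow] at h1
    linear_combination h1 + (rho D h ^ 2 - C b * φ * rho D h) * this
  have h3 := (pow_eq_zero_iff two_ne_zero).1 h2
  exact (sub_eq_zero.1 h3).symm

/-- Moving away from the cusps. -/
theorem move1 (hG : Good 2 (-1 : K) (f.map (algebraMap O K)))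
    {I : Ideal (CR 2 (f.map (algebraMap O K)))} (hI : I ≠ ⊥) :
    ∃ (I' : Ideal (CR 2 (f.map (algebraMap O K)))) (u : O[X]), I' ≠ ⊥ ∧ Eqv I I' ∧ NN red I' u ∧
      IsCoprime (u.map red) (B.map red) := by
  haveI := hyps.ring 2 K (-1) _ hG
  have hπK : algebraMap O K π ≠ 0 := by
    rw [Ne, map_eq_zero_iff _ (IsFractionRing.injective O K)]
    exact D.irr.ne_zero
  have hcu : ∀ c : K, c ≠ 0 → IsUnit (xp 2 (f.map (algebraMap O K)) (C c)) := fun c hc =>
    (isUnit_C.2 (isUnit_iff_ne_zero.2 hc)).map (AdjoinRoot.of _)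
  -- the choice of `i`
  obtain ⟨i, hi⟩ : ∃ i : ℕ, I ⊔ Ideal.span {jj K f (yy 2 f + xp 2 f (A + C (π ^ (i + 1))))} = ⊤ := by
    by_contra hc
    push Not at hc
    have h1 : ∀ i : ℕ, ∃ P : IsDedekindDomain.HeightOneSpectrum (CR 2 (f.map (algebraMap O K))), I ≤ P.asIdeal ∧
        jj K f (yy 2 f + xp 2 f (A + C (π ^ (i + 1)))) ∈ P.asIdeal := by
      intro i
      obtain ⟨M, hM, hle⟩ := Ideal.exists_le_maximal _ (hc i)
      have hM0 : M ≠ ⊥ := by
        rintro rfl
        rw [le_bot_iff, sup_eq_bot_iff] at hle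
        exact hI hle.1
      exact ⟨⟨M, hM.isPrime, hM0⟩, le_sup_left.trans hle,
        (le_sup_right.trans hle) (Ideal.mem_span_singleton_self _)⟩
    choose P hP1 hP2 using h1
    have hinj : Function.Injective P := by
      intro i j hij
      by_contra hne
      have h2 := (P i).asIdeal.sub_mem (hP2 i) (by rw [hij]; exact hP2 j)
      rw [← map_sub] at h2
      have h3 : (yy 2 f + xp 2 f (A + C (π ^ (i + 1)))) - (yy 2 f + xp 2 f (A + C (π ^ (j + 1)))) =
          xp 2 f (C (π ^ (i + 1) - π ^ (j + 1))) := by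
        rw [xp_add, xp_add, C_sub, xp_sub]; ring
      rw [h3, crMap_xp, map_C] at h2
      have h4 : algebraMap O K (π ^ (i + 1) - π ^ (j + 1)) ≠ 0 := by
        rw [Ne, map_eq_zero_iff _ (IsFractionRing.injective O K), sub_eq_zero]
        intro h5
        have := (pow_inj_of_not_isUnit D.irr.not_isUnit D.irr.ne_zero).1 h5
        omega
      exact (P i).isPrime.ne_top (Ideal.eq_top_of_isUnit_mem _ h2 (hcu _ h4))
    have hfin := Ideal.finite_factors (I := I) (by rwa [Ne, Ideal.zero_eq_bot])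
    refine Set.infinite_range_of_injective hinj (hfin.subset ?_)
    rintro _ ⟨i, rfl⟩
    exact Ideal.dvd_iff_le.2 (hP1 i)
  set A' := A + C (π ^ (i + 1)) with hA'
  have D' := D.shift i
  rw [← hA'] at D'
  set Y : CR 2 f := yy 2 f + xp 2 f A' with hY
  obtain ⟨e, he, hez⟩ := pir D' (I.comap (jj K f))
  rw [← hY] at hez
  have hcan : ∀ z : CR 2 f, jj K f (Y * z) ∈ I → jj K f z ∈ I := by
    intro z hz
    have h1 : (1 : CR 2 (f.map (algebraMap O K))) ∈ I ⊔ Ideal.span {jj K f Y} := by rw [hi]; trivial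
    obtain ⟨a, ha, b, hb, hab⟩ := Submodule.mem_sup.1 h1
    obtain ⟨s, rfl⟩ := Ideal.mem_span_singleton'.1 hb
    have h2 : jj K f z = jj K f z * a + s * jj K f (Y * z) := by
      rw [map_mul]
      linear_combination (-(jj K f z)) * hab
    rw [h2]
    exact I.add_mem (I.mul_mem_left _ ha) (I.mul_mem_left _ hz)
  haveI := noeth D
  have hfg : (I.comap (jj K f)).FG := IsNoetherian.noetherian _
  obtain ⟨c, hc1, hc2⟩ := Submodule.exists_sub_one_mem_and_smul_le_of_fg_of_le_sup
    (I := Ideal.span {Y}) (N := Ideal.span {e}) hfg le_rfl (by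
      intro h hh
      obtain ⟨r, z, hrz⟩ := hez h hh
      have hz : z ∈ I.comap (jj K f) := by
        rw [Ideal.mem_comap]
        apply hcan
        have : Y * z = h - r * e := by rw [hrz]; ring
        rw [this, map_sub, map_mul]
        exact I.sub_mem hh (I.mul_mem_left _ he)
      rw [hrz]
      refine Submodule.add_mem_sup (Ideal.mul_mem_left _ _ (Ideal.mem_span_singleton_self e)) ?_
      exact Submodule.smul_mem_smul (Ideal.mem_span_singleton_self Y) hz)
  obtain ⟨s, hs⟩ := Ideal.mem_span_singleton'.1 hc1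
  have hρc : rho D c = 1 + rho D s * (X * expand k 2 (B.map red)) := by
    have h1 : c = 1 + s * Y := by linear_combination -hs
    have h2 : rho D Y = X * expand k 2 (B.map red) := by
      have h3 : A'.map red = A.map red := by
        rw [hA', Polynomial.map_add, map_C, map_pow, (D.ker π).2 dvd_rfl,
          zero_pow (Nat.succ_ne_zero i), C_0, add_zero]
      rw [hY, map_add, rho_yy, rho_xp, h3]
      linear_combination (expand k 2 (A.map red)) * two_poly D.two
    rw [h1, map_add, map_one, map_mul, h2]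
  have hcop : IsCoprime (rho D c) (expand k 2 (B.map red)) := by
    rw [hρc]
    refine ⟨1, -(rho D s * X), by ring⟩
  have hc0 : c ≠ 0 := by
    rintro rfl
    rw [map_zero] at hρc
    have h1 : IsUnit (X : k[X]) := isUnit_of_dvd_one ⟨-(rho D s * expand k 2 (B.map red)), by
      linear_combination -hρc⟩
    exact not_isUnit_X h1
  haveI := dom D.odd
  haveI := dom (D.oddK (K := K))
  have he0 : jj K f e ≠ 0 := by
    intro h0
    have h1 : e = 0 := by
      apply jj_inj (K := K)
      rw [h0, map_zero]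
    obtain ⟨z, hz, hz0⟩ := Submodule.exists_mem_ne_zero_of_ne_bot hI
    obtain ⟨n, h, hh⟩ := jj_clr (f := f) D.irr z
    have h2 : h ∈ I.comap (jj K f) := by
      rw [Ideal.mem_comap, ← hh]
      exact I.mul_mem_left _ hz
    have h3 := hc2 (Submodule.smul_mem_pointwise_smul _ c _ h2)
    rw [h1, Ideal.mem_span_singleton, zero_dvd_iff, smul_eq_mul] at h3
    rcases mul_eq_zero.1 h3 with h4 | h4
    · exact hc0 h4
    · rw [h4, map_zero] at hh
      rcases mul_eq_zero.1 hh with h5 | h5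
      · rw [← C_pow] at h5
        exact (hcu _ (pow_ne_zero n hπK)).ne_zero h5
      · exact hz0 h5
  obtain ⟨I', hI', hII'⟩ := exists_res hI he0 he
  obtain ⟨u, hu⟩ := exists_NN D hG hI'
  have hcI' : jj K f c ∈ I' := by
    have h1 : I * Ideal.span {jj K f c} ≤ I * I' := by
      rw [hII', Ideal.mul_le]
      intro z hz w hw
      obtain ⟨t, rfl⟩ := Ideal.mem_span_singleton'.1 hw
      obtain ⟨n, h, hh⟩ := jj_clr (f := f) D.irr z
      have h2 : h ∈ I.comap (jj K f) := by
        rw [Ideal.mem_comap, ← hh]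
        exact I.mul_mem_left _ hz
      have h3 := hc2 (Submodule.smul_mem_pointwise_smul _ c _ h2)
      rw [smul_eq_mul] at h3
      obtain ⟨v, hv⟩ := Ideal.mem_span_singleton'.1 h3
      have h4 := congrArg (jj K f) hv
      rw [map_mul, map_mul, ← hh] at h4
      obtain ⟨w', hw'⟩ := (hcu _ (pow_ne_zero n hπK)).exists_left_inv
      rw [C_pow] at hw'
      rw [Ideal.mem_span_singleton']
      refine ⟨t * w' * jj K f v, ?_⟩
      linear_combination (t * w') * h4 + (t * jj K f c * z) * hw'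
    have h2 : I' ∣ Ideal.span {jj K f c} := by
      rw [← mul_dvd_mul_iff_left hI]
      exact Ideal.dvd_iff_le.2 h1
    exact Ideal.dvd_span_singleton.1 h2
  refine ⟨I'.map (io (f.map (algebraMap O K))), u, ?_, ?_, nn_io D hu, ?_⟩
  · rw [Ne, Ideal.map_eq_bot_iff_of_injective (fun a b h => by rw [← io_io a, h, io_io])]
    exact hI'
  · rw [mul_comm] at hII'
    exact eqv_of_mul hI' he0 (nn_ne D hu) hII' hu.eq
  · obtain ⟨w, hw⟩ := nn_dvd D hu hcI'
    rw [← exp_cop]
    have h1 := rho_nm D c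
    rw [hw, Polynomial.map_mul, map_mul] at h1
    exact (hcop.pow_left (m := 2)).of_isCoprime_of_dvd_left (Dvd.intro _ h1)

theorem nn_unit {I : Ideal (CR 2 (f.map (algebraMap O K)))} {u : O[X]} (h : NN red I u) {c : O}
    (hc : IsUnit c) : NN red I (C c * u) := by
  refine ⟨?_, ?_⟩
  · rw [Polynomial.map_mul, map_C]
    exact mul_ne_zero (C_ne_zero.2 (red_unit D hc)) h.prim
  · rw [h.eq, Polynomial.map_mul, xp_mul, map_C]
    refine (Ideal.span_singleton_mul_left_unit ?_ _).symm
    exact (isUnit_C.2 (hc.map (algebraMap O K))).map (AdjoinRoot.of _)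

/-- Good ideals. -/
structure Gd (red : O →+* k) (B : O[X]) (I : Ideal (CR 2 (f.map (algebraMap O K)))) (u : O[X]) :
    Prop where
  ne : I ≠ ⊥
  nn : NN red I u
  mon : u.Monic
  cop : IsCoprime (u.map red) (B.map red)

/-- Moving away from infinity. -/
theorem move2 (hG : Good 2 (-1 : K) (f.map (algebraMap O K)))
    {I : Ideal (CR 2 (f.map (algebraMap O K)))} (hI : I ≠ ⊥) {u : O[X]} (hN : NN red I u)
    (hcop : IsCoprime (u.map red) (B.map red)) :
    ∃ (I' : Ideal (CR 2 (f.map (algebraMap O K)))) (u' : O[X]), Eqv I I' ∧ Gd red B I' u' := by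
  haveI := hyps.ring 2 K (-1) _ hG
  obtain ⟨φ, hφ⟩ := exists_sqrt D.two D.sq (u.map red)
  have hφ0 : φ ≠ 0 := sqrt_ne hφ hN.prim
  set s : k[X] := X * B.map red + 1 with hs
  have hsd : s.natDegree = g + 1 := by
    rw [hs, natDegree_add_eq_left_of_natDegree_lt, monic_X.natDegree_mul D.monB', natDegree_X,
      D.degB', add_comm]
    rw [natDegree_one, monic_X.natDegree_mul D.monB', natDegree_X]
    omega
  have hs0 : s ≠ 0 := by
    intro h0
    rw [h0, natDegree_zero] at hsd
    omega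
  set m := (u.map red).natDegree + 2 * s.natDegree with hm
  have hφd := sqrt_deg hφ
  have had : (φ * expand k 2 s).natDegree = m := by
    rw [natDegree_mul hφ0 (by rwa [Ne, expand_eq_zero two_pos]), natDegree_expand, hφd]
    omega
  obtain ⟨h, hh1, hh2, hh3⟩ := lift_ideal D hI hN hφ hcop (m := m) (a := φ * expand k 2 s)
    (by omega) had.le (by
      have : φ * (φ * expand k 2 s) = expand k 2 (u.map red * s) := by
        rw [map_mul, ← hφ]; ring
      rw [this, der_exp D.two]
      exact dvd_zero _)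
  have hexs : expand k 2 s ≠ 0 := by rwa [Ne, expand_eq_zero two_pos]
  have hρ0 : rho D h ≠ 0 := by
    rw [hh3]
    exact mul_ne_zero hφ0 (mul_ne_zero hφ0 hexs)
  have hj0 : jj K f h ≠ 0 := by
    intro h0
    have : h = 0 := by
      apply jj_inj (K := K)
      rw [h0, map_zero]
    rw [this, map_zero] at hρ0
    exact hρ0 rfl
  haveI := dom (D.oddK (K := K))
  obtain ⟨I', hI', hII'⟩ := exists_res hI hj0 hh2
  obtain ⟨u', hu'⟩ := exists_NN D hG hI'
  obtain ⟨φ', hφ'⟩ := exists_sqrt D.two D.sq (u'.map red)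
  obtain ⟨c, hc, hcr⟩ := nn_rho_res D hN hu' hII' hρ0 (φ := φ * φ') (by
    rw [mul_pow, hφ, hφ', map_mul])
  have h1 : φ * expand k 2 s = C c * φ' := by
    rw [hh3] at hcr
    apply mul_left_cancel₀ hφ0
    rw [hcr]; ring
  have h2 : u.map red * s ^ 2 = C (c ^ 2) * u'.map red := by
    apply expand_injective (R := k) two_pos
    rw [map_mul, map_mul, map_pow, expand_C, ← hφ, ← hφ', ← mul_pow, h1, C_pow, mul_pow]
  have hcop' : IsCoprime (u'.map red) (B.map red) := by
    have h3 : IsCoprime (u.map red * s ^ 2) (B.map red) := by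
      refine IsCoprime.mul_left hcop (IsCoprime.pow_left ?_)
      exact ⟨1, -X, by rw [hs]; ring⟩
    rw [h2] at h3
    exact h3.of_mul_left_right
  have hd1 : (u'.map red).natDegree = m := by
    have h3 := congrArg natDegree h2
    rw [natDegree_mul hN.prim (pow_ne_zero 2 hs0), natDegree_pow,
      natDegree_C_mul (pow_ne_zero 2 hc)] at h3
    omega
  obtain ⟨c', hc', hn⟩ := nn_res D hN hu' hII' hρ0
  have hu0 : u ≠ 0 := by
    rintro rfl
    exact hN.prim (Polynomial.map_zero _)
  have hu0' : u' ≠ 0 := by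
    rintro rfl
    exact hu'.prim (Polynomial.map_zero _)
  have hc'0 : c' ≠ 0 := by
    rintro rfl
    exact hc' (map_zero _)
  have hd2 : u'.natDegree ≤ m := by
    have h3 := (le_iff D.odd).1 hh1
    rw [hn, natDegree_C_mul hc'0, natDegree_mul hu0 hu0'] at h3
    omega
  have hd3 : (u'.map red).natDegree ≤ u'.natDegree := natDegree_map_le
  have hlc : red u'.leadingCoeff ≠ 0 := by
    have h3 : red u'.leadingCoeff = (u'.map red).leadingCoeff := by
      rw [leadingCoeff, leadingCoeff, coeff_map]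
      congr 2
      omega
    rw [h3]
    exact leadingCoeff_ne_zero.2 hu'.prim
  have hlu := unit_of_red D hlc
  obtain ⟨v, hv⟩ := hlu
  have hvv : u'.leadingCoeff * ↑v⁻¹ = 1 := by rw [← hv]; simp
  refine ⟨I'.map (io _), C (↑v⁻¹ : O) * u', ?_, ?_, ?_, ?_, ?_⟩
  · rw [mul_comm] at hII'
    exact eqv_of_mul hI' hj0 (nn_ne D hu') hII' hu'.eq
  · rw [Ne, Ideal.map_eq_bot_iff_of_injective (fun a b h => by rw [← io_io a, h, io_io])]
    exact hI'
  · exact nn_unit D (nn_io D hu') v⁻¹.isUnit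
  · rw [Monic, leadingCoeff_mul, leadingCoeff_C, mul_comm, hvv]
  · rw [Polynomial.map_mul, map_C]
    obtain ⟨a, b, hab⟩ := hcop'
    refine ⟨a * C (red v), b, ?_⟩
    have h3 : C (red (v : O)) * C (red (↑v⁻¹ : O)) = (1 : k[X]) := by
      rw [← C_mul, ← map_mul]; simp
    linear_combination hab + (a * u'.map red) * h3

/-- Every class contains a good ideal. -/
theorem exists_good (hG : Good 2 (-1 : K) (f.map (algebraMap O K)))
    {I : Ideal (CR 2 (f.map (algebraMap O K)))} (hI : I ≠ ⊥) :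
    ∃ (I' : Ideal (CR 2 (f.map (algebraMap O K)))) (u' : O[X]), Eqv I I' ∧ Gd red B I' u' := by
  haveI := dom (D.oddK (K := K))
  obtain ⟨I₁, u₁, h1, h2, h3, h4⟩ := move1 D hG hI
  obtain ⟨I₂, u₂, h5, h6⟩ := move2 D hG h1 h3 h4
  exact ⟨I₂, u₂, Pool.Agent.Y494.SE.Eqv.trans h2 h5, h6⟩

end main

end Run7.h23.Lo
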