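import Mathlib

/-!
# Polynomials over a perfect field of characteristic two
-/

set_option autoImplicit false
set_option linter.all false

open Polynomial
open scoped Classical

namespace Run7.h23.Lo

section

variable {k : Type} [Field k]

/-- Even and odd part. -/
theorem parity (q : k[X]) : ∃ q0 q1 : k[X], q = expand k 2 q0 + X * expand k 2 q1 ∧
    2 * q0.natDegree ≤ q.natDegree ∧ (q1 = 0 ∨ 2 * q1.natDegree + 1 ≤ q.natDegree) := by
  set d := q.natDegree with hd
  set q0 : k[X] := ∑ i ∈ Finset.range (d / 2 + 1), C (q.coeff (2 * i)) * X ^ i with hq0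
  set q1 : k[X] := ∑ i ∈ Finset.range ((d + 1) / 2), C (q.coeff (2 * i + 1)) * X ^ i with hq1
  have h0 : ∀ n, q0.coeff n = q.coeff (2 * n) := by
    intro n
    rw [hq0, finset_sum_coeff]
    simp only [coeff_C_mul, coeff_X_pow]
    by_cases hn : n < d / 2 + 1
    · rw [Finset.sum_eq_single n]
      · simp
      · intro b _ hb
        rw [if_neg (Ne.symm hb), mul_zero]
      · intro h; exact absurd (Finset.mem_range.2 hn) h
    · rw [Finset.sum_eq_zero, coeff_eq_zero_of_natDegree_lt (by omega)]
      intro b hb
      rw [Finset.mem_range] at hb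
      rw [if_neg (by omega), mul_zero]
  have h1 : ∀ n, q1.coeff n = q.coeff (2 * n + 1) := by
    intro n
    rw [hq1, finset_sum_coeff]
    simp only [coeff_C_mul, coeff_X_pow]
    by_cases hn : n < (d + 1) / 2
    · rw [Finset.sum_eq_single n]
      · simp
      · intro b _ hb
        rw [if_neg (Ne.symm hb), mul_zero]
      · intro h; exact absurd (Finset.mem_range.2 hn) h
    · rw [Finset.sum_eq_zero, coeff_eq_zero_of_natDegree_lt (by omega)]
      intro b hb
      rw [Finset.mem_range] at hb
      rw [if_neg (by omega), mul_zero]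
  refine ⟨q0, q1, ?_, ?_, ?_⟩
  · ext n
    rw [coeff_add, coeff_expand two_pos]
    rcases Nat.even_or_odd' n with ⟨m, rfl | rfl⟩
    · rw [if_pos (dvd_mul_right 2 m), Nat.mul_div_cancel_left m two_pos, h0]
      rcases m with _ | m
      · simp
      · rw [show 2 * (m + 1) = (2 * m + 1) + 1 by ring, coeff_X_mul, coeff_expand two_pos,
          if_neg (by omega), add_zero]
    · rw [if_neg (by omega), coeff_X_mul, coeff_expand two_pos, if_pos (dvd_mul_right 2 m),
        Nat.mul_div_cancel_left m two_pos, h1, zero_add]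
  · have : q0.natDegree ≤ d / 2 := by
      rw [natDegree_le_iff_coeff_eq_zero]
      intro N hN
      rw [h0, coeff_eq_zero_of_natDegree_lt (by omega)]
    omega
  · by_cases hz : q1 = 0
    · exact Or.inl hz
    right
    by_contra hc
    apply hz
    have hl := leadingCoeff_ne_zero.2 hz
    exfalso
    apply hl
    rw [leadingCoeff, h1, coeff_eq_zero_of_natDegree_lt (by omega)]

theorem der_exp (h2 : (2 : k) = 0) (p : k[X]) : derivative (expand k 2 p) = 0 := by
  rw [derivative_expand]
  have : ((2 : ℕ) : k[X]) = 0 := by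
    rw [← C_eq_natCast, Nat.cast_ofNat, h2, C_0]
  rw [this, zero_mul, mul_zero]

theorem der_par (h2 : (2 : k) = 0) (p q : k[X]) :
    derivative (expand k 2 p + X * expand k 2 q) = expand k 2 q := by
  rw [derivative_add, derivative_mul, der_exp h2, der_exp h2, derivative_X]; ring

theorem two_poly (h2 : (2 : k) = 0) : (2 : k[X]) = 0 := by
  have : (2 : k[X]) = C (2 : k) := rfl
  rw [this, h2, C_0]

theorem der_sq (h2 : (2 : k) = 0) (p q : k[X]) :
    derivative (p * q ^ 2) = derivative p * q ^ 2 := by
  rw [derivative_mul, derivative_pow]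
  have h := two_poly h2
  simp only [Nat.cast_ofNat]
  rw [h2]
  simp

theorem exp_dvd {a b : k[X]} : expand k 2 b ∣ expand k 2 a ↔ b ∣ a := by
  constructor
  · intro h
    by_cases hb : b = 0
    · subst hb
      rw [map_zero, zero_dvd_iff] at h
      rw [(expand_eq_zero two_pos).1 h]
    have h1 : a = b * (a / b) + a % b := (EuclideanDomain.div_add_mod a b).symm
    have h2 : expand k 2 b ∣ expand k 2 (a % b) := by
      have h3 : expand k 2 (a % b) = expand k 2 a - expand k 2 b * expand k 2 (a / b) := by
        rw [← map_mul, ← map_sub]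
        congr 1
        linear_combination -h1
      rw [h3]
      exact dvd_sub h (dvd_mul_right _ _)
    have h4 : a % b = 0 := by
      by_contra h0
      have h5 := natDegree_le_of_dvd h2 (by rwa [Ne, expand_eq_zero two_pos])
      rw [natDegree_expand, natDegree_expand] at h5
      have h6 := degree_lt_degree (p := b) (q := a % b)
      have h7 : (a % b).degree < b.degree := EuclideanDomain.mod_lt a hb
      have h8 := natDegree_lt_natDegree h0 h7
      omega
    rw [h1, h4, add_zero]
    exact dvd_mul_right _ _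
  · rintro ⟨c, rfl⟩
    rw [map_mul]
    exact dvd_mul_right _ _

theorem exp_cop {a b : k[X]} : IsCoprime (expand k 2 a) (expand k 2 b) ↔ IsCoprime a b := by
  constructor
  · intro h
    by_contra hc
    have h1 : ¬ IsUnit (EuclideanDomain.gcd a b) := fun hu =>
      hc (EuclideanDomain.gcd_isUnit_iff.1 hu)
    have h2 := EuclideanDomain.gcd_dvd_left a b
    have h3 := EuclideanDomain.gcd_dvd_right a b
    have h4 := h.isUnit_of_dvd' (exp_dvd.2 h2) (exp_dvd.2 h3)
    apply h1
    have h5 := natDegree_eq_zero_of_isUnit h4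
    rw [natDegree_expand] at h5
    have h6 : EuclideanDomain.gcd a b ≠ 0 := by
      intro h0
      rw [h0, map_zero] at h4
      exact not_isUnit_zero h4
    rw [isUnit_iff_degree_eq_zero, degree_eq_natDegree h6]
    have : (EuclideanDomain.gcd a b).natDegree = 0 := by omega
    rw [this]
    rfl
  · rintro ⟨u, v, h⟩
    refine ⟨expand k 2 u, expand k 2 v, ?_⟩
    rw [← map_mul, ← map_mul, ← map_add, h, map_one]

/-- Square roots. -/
theorem exists_sqrt (h2 : (2 : k) = 0) (hs : ∀ a : k, ∃ b : k, b ^ 2 = a) (u : k[X]) :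
    ∃ φ : k[X], φ ^ 2 = expand k 2 u := by
  induction u using Polynomial.induction_on' with
  | add p q hp hq =>
    obtain ⟨a, ha⟩ := hp
    obtain ⟨b, hb⟩ := hq
    refine ⟨a + b, ?_⟩
    rw [map_add, ← ha, ← hb]
    linear_combination (a * b) * two_poly h2
  | monomial n c =>
    obtain ⟨b, hb⟩ := hs c
    refine ⟨monomial n b, ?_⟩
    rw [expand_monomial, ← hb, monomial_pow]

theorem sqrt_deg {u φ : k[X]} (h : φ ^ 2 = expand k 2 u) : φ.natDegree = u.natDegree := by
  have h1 := congrArg natDegree h
  rw [natDegree_pow, natDegree_expand] at h1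
  omega

theorem sqrt_ne {u φ : k[X]} (h : φ ^ 2 = expand k 2 u) (hu : u ≠ 0) : φ ≠ 0 := by
  rintro rfl
  rw [zero_pow two_ne_zero] at h
  exact hu ((expand_eq_zero two_pos).1 h.symm)

theorem sq_dvd {a b : k[X]} (h : a ^ 2 ∣ b ^ 2) : a ∣ b := by
  by_cases ha : a = 0
  · subst ha
    rw [zero_pow two_ne_zero, zero_dvd_iff] at h
    rw [pow_eq_zero_iff two_ne_zero] at h
    rw [h]
  exact (IsIntegrallyClosed.pow_dvd_pow_iff two_ne_zero).1 h

end

end Run7.h23.Lo
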