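import Pool.Agent.Run7.h23.Lo.Cls

/-!
# Divisible classes are trivial modulo all powers of `π`, hence trivial
-/

set_option autoImplicit false
set_option linter.all false

open Polynomial Pool.Agent.Y160.SE
open scoped Classical Pointwise

namespace Run7.h23.Lo

section div

variable {E : Type} [CommRing E] [IsDomain E] {f : E[X]}

/-- Division by a monic polynomial, with the pole order. -/
theorem div_le {U : E[X]} (hU : U.Monic) {n : ℕ} {a : CR 2 f} (ha : Le (n + 2 * U.natDegree) a) :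
    ∃ q r : CR 2 f, a = xp 2 f U * q + r ∧ Le n q ∧
    (c0 r ∈ degreeLT E U.natDegree) ∧ (c1 r ∈ degreeLT E U.natDegree) := by
  refine ⟨el f (c0 a /ₘ U) (c1 a /ₘ U), el f (c0 a %ₘ U) (c1 a %ₘ U), ?_, ⟨?_, ?_⟩, ?_, ?_⟩
  · rw [xp_mul_el, el_add]
    conv_lhs => rw [← el_eq a]
    congr 1
    · rw [add_comm]; exact (modByMonic_add_div _ _).symm
    · rw [add_comm]; exact (modByMonic_add_div _ _).symm
  · rw [c0_el, natDegree_divByMonic _ hU]
    have := ha.1
    omega
  · rw [c1_el]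
    by_cases h0 : c1 a /ₘ U = 0
    · exact Or.inl h0
    right
    have h1 : ¬ (c1 a).degree < U.degree := fun h => h0 ((divByMonic_eq_zero_iff hU).2 h)
    have h2 : c1 a ≠ 0 := by
      intro h; apply h0; rw [h, zero_divByMonic]
    have h3 : U.natDegree ≤ (c1 a).natDegree := by
      by_contra hc
      push Not at hc
      exact h1 (degree_lt_degree hc)
    have h4 := ha.2.resolve_left h2
    rw [natDegree_divByMonic _ hU]
    omega
  · rw [c0_el, mem_degreeLT, ← degree_eq_natDegree hU.ne_zero]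
    exact degree_modByMonic_lt _ hU
  · rw [c1_el, mem_degreeLT, ← degree_eq_natDegree hU.ne_zero]
    exact degree_modByMonic_lt _ hU

theorem div_uniq {U : E[X]} (hU : U.Monic) {q r : CR 2 f} (h : xp 2 f U * q = r)
    (h0 : c0 r ∈ degreeLT E U.natDegree) (h1 : c1 r ∈ degreeLT E U.natDegree) : q = 0 := by
  have key : ∀ p s : E[X], U * p = s → s ∈ degreeLT E U.natDegree → p = 0 := by
    intro p s hps hs
    by_contra hp
    rw [dlt, ← hps] at hs
    rcases hs with hs | hs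
    · rcases mul_eq_zero.1 hs with h | h
      · exact hU.ne_zero h
      · exact hp h
    · rw [natDegree_mul hU.ne_zero hp] at hs
      omega
  apply el_ext
  · rw [c0_zero]
    exact key _ _ (by rw [← c0_xp_mul, h]) h0
  · rw [c1_zero]
    exact key _ _ (by rw [← c1_xp_mul, h]) h1

end div

section main

variable {O k K : Type} [CommRing O] [IsDomain O] [IsDiscreteValuationRing O] [Field k] [Field K]
  [Algebra O K] [IsFractionRing O K] {red : O →+* k} {π : O} {g : ℕ}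
  {f A B E : O[X]} (D : Dat red π g f A B E)

include D

/-- The class of the ideal is trivial modulo `π ^ s`. -/
def Gs (D : Dat red π g f A B E) (I : Ideal (CR 2 (f.map (algebraMap O K)))) (u : O[X]) (s : ℕ) :
    Prop :=
  ∃ h a b : CR 2 f, jj K f h ∈ I ∧ rho D h ≠ 0 ∧ Le u.natDegree a ∧ h = a + xp 2 f (C π) ^ s * b

theorem princ (hG : Good 2 (-1 : K) (f.map (algebraMap O K)))
    {I I₁ : Ideal (CR 2 (f.map (algebraMap O K)))} {u₁ : O[X]} (hN : NN red I₁ u₁)
    (h : Eqv I (I₁ * I₁)) : ∃ r : CR 2 f, rho D r ≠ 0 ∧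
      I * (I₁.map (io (f.map (algebraMap O K))) * I₁.map (io (f.map (algebraMap O K)))) =
        Ideal.span {jj K f r} := by
  haveI := hyps.ring 2 K (-1) _ hG
  haveI := dom (D.oddK (K := K))
  obtain ⟨a, b, ha, hb, hab⟩ := h
  set J := I₁.map (io (f.map (algebraMap O K))) with hJ
  set x := xp 2 (f.map (algebraMap O K)) (u₁.map (algebraMap O K)) with hx
  have h1 : Ideal.span {a} * (I * (J * J)) = Ideal.span {b * x ^ 2} := by
    have e1 : Ideal.span {a} * (I * (J * J)) = (Ideal.span {a} * I) * (J * J) := by ring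
    have e2 : Ideal.span {b} * (I₁ * I₁) * (J * J) = Ideal.span {b} * ((I₁ * J) * (I₁ * J)) := by
      ring
    rw [e1, hab, e2, hN.eq, Ideal.span_singleton_mul_span_singleton,
      Ideal.span_singleton_mul_span_singleton, pow_two x]
  have h2 : b * x ^ 2 ∈ Ideal.span {a} := by
    have h3 : Ideal.span {a} * (I * (J * J)) ≤ Ideal.span {a} := Ideal.mul_le_left
    apply h3
    rw [h1]
    exact Ideal.mem_span_singleton_self _
  obtain ⟨r', hr'⟩ := Ideal.mem_span_singleton'.1 h2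
  have ha0 : Ideal.span {a} ≠ ⊥ := by rwa [Ne, Ideal.span_singleton_eq_bot]
  have h4 : I * (J * J) = Ideal.span {r'} := by
    apply mul_left_cancel₀ ha0
    rw [h1, Ideal.span_singleton_mul_span_singleton, ← hr', mul_comm]
  have hr0 : r' ≠ 0 := by
    rintro rfl
    rw [zero_mul] at hr'
    rcases mul_eq_zero.1 hr'.symm with h5 | h5
    · exact hb h5
    · exact nn_ne D hN ((pow_eq_zero_iff two_ne_zero).1 h5)
  obtain ⟨c, r, hc, hr, hcr⟩ := prim D hr0
  refine ⟨r, hr, ?_⟩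
  rw [h4, hcr]
  exact Ideal.span_singleton_mul_left_unit ((isUnit_C.2 (isUnit_iff_ne_zero.2 hc)).map
    (AdjoinRoot.of _)) _

/-- The first step. -/
theorem step1 (hG : Good 2 (-1 : K) (f.map (algebraMap O K)))
    {I I₁ : Ideal (CR 2 (f.map (algebraMap O K)))} {u u₁ : O[X]} (hI : Gd red B I u)
    (hI₁ : Gd red B I₁ u₁) (h : Eqv I (I₁ * I₁)) : Gs D I u 1 := by
  haveI := hyps.ring 2 K (-1) _ hG
  obtain ⟨r, hr, hIr⟩ := princ D hG hI₁.nn h
  obtain ⟨φ, hφ⟩ := exists_sqrt D.two D.sq (u.map red)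
  obtain ⟨φ₁, hφ₁⟩ := exists_sqrt D.two D.sq (u₁.map red)
  obtain ⟨c, hc, hcr⟩ := nn_rho_res D hI.nn (nn_mul D (nn_io D hI₁.nn) (nn_io D hI₁.nn)) hIr hr
    (φ := φ * φ₁ ^ 2) (by
      rw [mul_pow, hφ, hφ₁, Polynomial.map_mul, map_mul, map_mul]; ring)
  have h1 := der_rho D r
  rw [hcr, derivative_C_mul, der_sq D.two, hφ₁] at h1
  have h2 : expand k 2 (B.map red) ∣ derivative φ := by
    have h3 : IsCoprime (expand k 2 (B.map red)) (C c) :=
      (isCoprime_one_right.of_isCoprime_of_dvd_right (isUnit_C.2 (isUnit_iff_ne_zero.2 hc)).dvd)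
    have h4 := h3.dvd_of_dvd_mul_left h1
    exact (exp_cop.2 hI₁.cop).symm.dvd_of_dvd_mul_right h4
  obtain ⟨p, hp1, hp2, hp3⟩ := lift_ideal D hI.ne hI.nn hφ hI.cop
    (m := (u.map red).natDegree + 2 * g) (a := 1) (by omega) (by rw [natDegree_one]; omega)
    (by rwa [mul_one])
  rw [mul_one] at hp3
  have hd : φ.natDegree ≤ u.natDegree := by
    rw [sqrt_deg hφ]
    exact natDegree_map_le
  obtain ⟨a, ha1, ha2⟩ := rho_lift D h2 hd
  have h5 : rho D (p - a) = 0 := by rw [map_sub, hp3, ha2, sub_self]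
  obtain ⟨b, hb⟩ := (rho_zero D).1 h5
  refine ⟨p, a, b, hp2, ?_, ha1, ?_⟩
  · rw [hp3]; exact sqrt_ne hφ hI.nn.prim
  · rw [pow_one]
    linear_combination hb

/-- The induction step. -/
theorem step2 (hG : Good 2 (-1 : K) (f.map (algebraMap O K)))
    {I I₁ : Ideal (CR 2 (f.map (algebraMap O K)))} {u u₁ : O[X]} (hI : Gd red B I u)
    (hI₁ : Gd red B I₁ u₁) (h : Eqv I (I₁ * I₁)) {s : ℕ} (hs : 1 ≤ s) (h1 : Gs D I₁ u₁ s) :
    Gs D I u (s + 1) := by
  haveI := hyps.ring 2 K (-1) _ hG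
  haveI := dom D.odd
  obtain ⟨r, hr, hIr⟩ := princ D hG hI₁.nn h
  obtain ⟨h₁, a₁, b₁, hh1, hh2, hh3, hh4⟩ := h1
  -- the degree of `r`
  have hrd : Le (u.natDegree + 2 * u₁.natDegree) r := by
    rw [le_iff D.odd]
    obtain ⟨c, -, hcn⟩ := nn_res D hI.nn (nn_mul D (nn_io D hI₁.nn) (nn_io D hI₁.nn)) hIr hr
    rw [hcn]
    have e1 := natDegree_C_mul_le c (u * (u₁ * u₁))
    have e2 := natDegree_mul_le (p := u) (q := u₁ * u₁)
    have e3 := natDegree_mul_le (p := u₁) (q := u₁)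
    omega
  -- the product
  have h3 : jj K f (r * h₁ ^ 2) ∈
      Ideal.span {xp 2 (f.map (algebraMap O K)) ((u₁ ^ 2).map (algebraMap O K))} * I := by
    have e1 : jj K f r * (jj K f h₁ * jj K f h₁) ∈
        (I * (I₁.map (io (f.map (algebraMap O K))) * I₁.map (io (f.map (algebraMap O K))))) *
          (I₁ * I₁) := by
      refine Ideal.mul_mem_mul ?_ (Ideal.mul_mem_mul hh1 hh1)
      rw [hIr]
      exact Ideal.mem_span_singleton_self _
    have e2 : (I * (I₁.map (io (f.map (algebraMap O K))) * I₁.map (io (f.map (algebraMap O K))))) *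
          (I₁ * I₁) = Ideal.span {xp 2 (f.map (algebraMap O K)) ((u₁ ^ 2).map (algebraMap O K))} * I := by
      rw [pow_two u₁, Polynomial.map_mul, xp_mul, ← Ideal.span_singleton_mul_span_singleton,
        ← hI₁.nn.eq]
      ring
    rw [e2] at e1
    rwa [map_mul, map_pow, pow_two (jj K f h₁)]
  obtain ⟨z, hz, hz2⟩ := Ideal.mem_span_singleton_mul.1 h3
  have hU : (u₁ ^ 2).Monic := hI₁.mon.pow 2
  have hρU : rho D (xp 2 f (u₁ ^ 2)) ≠ 0 := by
    refine rho_ne_of_exp D (rho_xp D _) ?_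
    rw [Polynomial.map_pow]
    exact pow_ne_zero 2 hI₁.nn.prim
  obtain ⟨h', hh'⟩ := gauss D (K := K) hρU (r := r * h₁ ^ 2) (z := z) (by
    rw [crMap_xp]; exact hz2)
  have h4 : xp 2 f (u₁ ^ 2) * h' = r * h₁ ^ 2 := by
    apply jj_inj (K := K)
    rw [map_mul, crMap_xp, ← hh', hz2]
  obtain ⟨t, ht⟩ : ∃ t : O, (2 : O) = π * t := by
    have : red 2 = 0 := by rw [map_ofNat]; exact D.two
    exact (D.ker 2).1 this
  obtain ⟨s', rfl⟩ : ∃ s', s = s' + 1 := ⟨s - 1, by omega⟩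
  set P : CR 2 f := xp 2 f (C π) with hP
  have ht2 : (2 : CR 2 f) = P * xp 2 f (C t) := by
    rw [hP, ← xp_mul, ← C_mul, ← ht]
    rfl
  obtain ⟨w, hw⟩ : ∃ w : CR 2 f, r * h₁ ^ 2 = r * a₁ ^ 2 + P ^ (s' + 2) * w := by
    refine ⟨r * (xp 2 f (C t) * a₁ * b₁ + P ^ s' * b₁ ^ 2), ?_⟩
    rw [hh4]
    have e : (a₁ + P ^ (s' + 1) * b₁) ^ 2 =
        a₁ ^ 2 + 2 * (P ^ (s' + 1) * a₁ * b₁) + P ^ (2 * s' + 2) * b₁ ^ 2 := by ring
    rw [e, ht2]
    ring
  have hdU : (u₁ ^ 2).natDegree = 2 * u₁.natDegree := hI₁.mon.natDegree_pow 2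
  have hle : Le (u.natDegree + 2 * (u₁ ^ 2).natDegree) (r * a₁ ^ 2) := by
    rw [pow_two a₁]
    refine (hrd.mul (hh3.mul hh3)).mono ?_
    rw [hdU]; omega
  obtain ⟨q, rm, hq1, hq2, hq3, hq4⟩ := div_le hU hle
  obtain ⟨qw, rw', hw1, hw2, hw3⟩ := div_cr hU w
  have h5 : xp 2 f (u₁ ^ 2) * (h' - q - P ^ (s' + 2) * qw) = rm + P ^ (s' + 2) * rw' := by
    rw [hq1] at hw
    rw [mul_sub, mul_sub, h4, hw]
    nth_rewrite 1 [hw1]
    ring
  have h6 := div_uniq hU h5 (by
    rw [c0_add, hP, ← xp_pow, c0_xp_mul]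
    refine Submodule.add_mem _ hq3 ?_
    rw [← C_pow, ← smul_eq_C_mul]
    exact Submodule.smul_mem _ _ hw2) (by
    rw [c1_add, hP, ← xp_pow, c1_xp_mul]
    refine Submodule.add_mem _ hq4 ?_
    rw [← C_pow, ← smul_eq_C_mul]
    exact Submodule.smul_mem _ _ hw3)
  refine ⟨h', q, qw, ?_, ?_, hq2, ?_⟩
  · rw [← hh']; exact hz
  · intro h0
    have h7 := congrArg (rho D) h4
    rw [map_mul, h0, mul_zero, map_mul, map_pow] at h7
    exact mul_ne_zero hr (pow_ne_zero 2 hh2) h7.symm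
  · linear_combination h6

/-- The end. -/
theorem last (hG : Good 2 (-1 : K) (f.map (algebraMap O K)))
    {I : Ideal (CR 2 (f.map (algebraMap O K)))} {u : O[X]} (hI : Gd red B I u)
    (h : ∀ s, 1 ≤ s → Gs D I u s) : ∃ a : CR 2 f, rho D a ≠ 0 ∧ I = Ideal.span {jj K f a} := by
  haveI := hyps.ring 2 K (-1) _ hG
  haveI := dom D.odd
  haveI := dom (D.oddK (K := K))
  set N : Submodule O (CR 2 f) := (I.comap (jj K f)).restrictScalars O with hN
  have hmN : ∀ x, x ∈ N ↔ jj K f x ∈ I := fun x => by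
    rw [hN, Submodule.restrictScalars_mem, Ideal.mem_comap]
  have huI : xp 2 (f.map (algebraMap O K)) (u.map (algebraMap O K)) ∈ I := by
    have h1 : I * I.map (io (f.map (algebraMap O K))) ≤ I := Ideal.mul_le_left
    apply h1
    rw [hI.nn.eq]
    exact Ideal.mem_span_singleton_self _
  have hsur := sur N.mkQ (Submodule.mkQ_surjective _) hI.mon (by
    intro x
    rw [← LinearMap.mem_ker, Submodule.ker_mkQ, hmN, map_mul, crMap_xp]
    exact I.mul_mem_right _ huI)
  haveI hfin : Module.Finite O (CR 2 f ⧸ N) := Module.Finite.of_surjective _ hsur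
  set L : Submodule O (CR 2 f ⧸ N) := (VV f u.natDegree).map N.mkQ with hL
  obtain ⟨e, he⟩ := Ideal.exists_pow_inf_eq_pow_smul (Ideal.span {π}) L
  obtain ⟨x, a, b, hx1, hx2, hx3, hx4⟩ := h (e + 1) (by omega)
  have haL : N.mkQ a ∈ (Ideal.span {π} ^ (e + 1) • (⊤ : Submodule O (CR 2 f ⧸ N)) ⊓ L) := by
    constructor
    · have h1 : a = x - π ^ (e + 1) • b := by
        rw [smul_cr, hx4, C_pow, xp_pow]; ring
      have h2 : N.mkQ x = 0 := by
        rw [← LinearMap.mem_ker, Submodule.ker_mkQ, hmN]; exact hx1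
      rw [h1, map_sub, h2, zero_sub, map_smul]
      refine Submodule.neg_mem _ (Submodule.smul_mem_smul ?_ trivial)
      exact Ideal.pow_mem_pow (Ideal.mem_span_singleton_self π) _
    · exact ⟨a, (mem_VV D.odd).2 hx3, rfl⟩
  rw [he (e + 1) (by omega), Nat.add_sub_cancel_left, pow_one] at haL
  have h3 : N.mkQ a ∈ Ideal.span {π} • L := Submodule.smul_mono le_rfl inf_le_right haL
  rw [Submodule.ideal_span_singleton_smul, Submodule.mem_smul_pointwise_iff_exists] at h3
  obtain ⟨y, hy, hya⟩ := h3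
  obtain ⟨a', ha', rfl⟩ := hy
  set c := a - π • a' with hc
  have hcI : jj K f c ∈ I := by
    rw [← hmN, ← Submodule.ker_mkQ N, LinearMap.mem_ker, hc, map_sub, map_smul, hya, sub_self]
  have hcV : Le u.natDegree c := by
    rw [← mem_VV D.odd, hc]
    exact Submodule.sub_mem _ ((mem_VV D.odd).2 hx3) (Submodule.smul_mem _ _ ha')
  have hρ : rho D c ≠ 0 := by
    have e1 : rho D c = rho D x := by
      have e2 : rho D (xp 2 f (C π)) = 0 := (rho_zero D).2 ⟨1, by rw [mul_one]⟩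
      rw [hc, hx4, smul_cr, map_sub, map_mul, map_add, map_mul, map_pow, e2, zero_mul, sub_zero,
        zero_pow (Nat.succ_ne_zero e), zero_mul, add_zero]
    rw [e1]; exact hx2
  refine ⟨c, hρ, ?_⟩
  have hj0 : jj K f c ≠ 0 := by
    intro h0
    have : c = 0 := by
      apply jj_inj (K := K)
      rw [h0, map_zero]
    rw [this, map_zero] at hρ
    exact hρ rfl
  obtain ⟨I', hI', hII'⟩ := exists_res hI.ne hj0 hcI
  obtain ⟨u', hu'⟩ := exists_NN D hG hI'
  obtain ⟨c', hc', hn⟩ := nn_res D hI.nn hu' hII' hρ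
  have hu0' : u' ≠ 0 := by
    rintro rfl
    exact hu'.prim (Polynomial.map_zero _)
  have hc'0 : c' ≠ 0 := by
    rintro rfl
    exact hc' (map_zero _)
  have h4 := (le_iff D.odd).1 hcV
  rw [hn, natDegree_C_mul hc'0, natDegree_mul hI.mon.ne_zero hu0'] at h4
  have h5 : u'.natDegree = 0 := by omega
  obtain ⟨v, rfl⟩ := natDegree_eq_zero.1 h5
  have hv0 : red v ≠ 0 := by
    intro h0
    apply hu'.prim
    rw [map_C, h0, C_0]
  have hvu : IsUnit (xp 2 (f.map (algebraMap O K)) ((C v).map (algebraMap O K))) := by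
    rw [map_C]
    exact (isUnit_C.2 ((unit_of_red D hv0).map (algebraMap O K))).map (AdjoinRoot.of _)
  have h6 : I' * I'.map (io (f.map (algebraMap O K))) = ⊤ := by
    rw [hu'.eq, Ideal.span_singleton_eq_top]
    exact hvu
  have h7 : I' = ⊤ := by
    rw [eq_top_iff, ← h6]
    exact Ideal.mul_le_left
  rw [← hII', h7, Ideal.mul_top]

/-- If all classes are divisible by two, all ideals are principal. -/
theorem main_local (hG : Good 2 (-1 : K) (f.map (algebraMap O K)))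
    (hdiv : ∀ I : Ideal (CR 2 (f.map (algebraMap O K))), I ≠ ⊥ →
      ∃ J : Ideal (CR 2 (f.map (algebraMap O K))), J ≠ ⊥ ∧ Eqv I (J * J))
    {I : Ideal (CR 2 (f.map (algebraMap O K)))} (hI : I ≠ ⊥) : Eqv I ⊤ := by
  haveI := hyps.ring 2 K (-1) _ hG
  haveI := dom (D.oddK (K := K))
  have key : ∀ s, 1 ≤ s → ∀ (I : Ideal (CR 2 (f.map (algebraMap O K)))) (u : O[X]),
      Gd red B I u → Gs D I u s := by
    intro s
    induction s with
    | zero => intro h; omega
    | succ s ih =>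
      intro _ I u hI
      obtain ⟨J, hJ, hIJ⟩ := hdiv I hI.ne
      obtain ⟨I₁, u₁, h1, h2⟩ := exists_good D hG hJ
      have h3 := Pool.Agent.Y494.SE.Eqv.trans hIJ (Pool.Agent.Y494.SE.Eqv.mul h1 h1)
      rcases Nat.eq_zero_or_pos s with rfl | hs
      · exact step1 D hG hI h2 h3
      · exact step2 D hG hI h2 h3 hs (ih hs I₁ u₁ h2)
  obtain ⟨I', u', h1, h2⟩ := exists_good D hG hI
  obtain ⟨a, ha, h3⟩ := last D hG h2 fun s hs => key s hs I' u' h2
  refine Pool.Agent.Y494.SE.Eqv.trans h1 ⟨1, jj K f a, one_ne_zero, ?_, ?_⟩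
  · intro h0
    have : a = 0 := by
      apply jj_inj (K := K)
      rw [h0, map_zero]
    rw [this, map_zero] at ha
    exact ha rfl
  · rw [h3, Ideal.mul_top, Ideal.span_singleton_one, Ideal.top_mul]

end main

end Run7.h23.Lo
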