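import Pool.Agent.Run7.h23.Lo.Bas
import Pool.Agent.Run7.h23.Lo.Ctwo

/-!
# The reduction of `O[x, y] / (y ^ 2 - f(x))` at the prime over `2`

`f = A ^ 2 + x B ^ 2 + π E`. The reduction is the ring of a rational curve with cusps: `x ↦ t ^ 2`,
`y ↦ A(t ^ 2) + t B(t ^ 2)`.
-/

set_option autoImplicit false
set_option linter.all false

open Polynomial Pool.Agent.Y160.SE
open scoped Classical

namespace Run7.h23.Lo

/-- The data. -/
structure Dat {O k : Type} [CommRing O] [IsDomain O] [Field k] (red : O →+* k) (π : O) (g : ℕ)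
    (f A B E : O[X]) : Prop where
  surj : Function.Surjective red
  irr : Irreducible π
  ker : ∀ x, red x = 0 ↔ π ∣ x
  two : (2 : k) = 0
  sq : ∀ a : k, ∃ b : k, b ^ 2 = a
  eq : f = A ^ 2 + X * B ^ 2 + C π * E
  degA : A.natDegree ≤ g
  monB : B.Monic
  degB : B.natDegree = g
  degE : E.natDegree ≤ 2 * g
  cop : IsCoprime (E.map red) (X * B.map red)

section

variable {O k : Type} [CommRing O] [IsDomain O] [Field k] {red : O →+* k} {π : O} {g : ℕ}
  {f A B E : O[X]} (D : Dat red π g f A B E)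

include D

theorem Dat.mon_deg : f.Monic ∧ f.natDegree = 2 * g + 1 := by
  have h1 : (X * B ^ 2).Monic := monic_X.mul (D.monB.pow 2)
  have h2 : (X * B ^ 2).natDegree = 2 * g + 1 := by
    rw [monic_X.natDegree_mul (D.monB.pow 2), natDegree_X, D.monB.natDegree_pow, D.degB]
    omega
  have h3 : (A ^ 2 + C π * E).natDegree < (X * B ^ 2).natDegree := by
    rw [h2]
    have e1 := natDegree_add_le (A ^ 2) (C π * E)
    have e2 := natDegree_C_mul_le π E
    have e3 := natDegree_pow_le (p := A) (n := 2)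
    have e4 := D.degA
    have e5 := D.degE
    omega
  have h4 : f = X * B ^ 2 + (A ^ 2 + C π * E) := by rw [D.eq]; ring
  constructor
  · rw [h4]
    exact h1.add_of_left (degree_lt_degree h3)
  · rw [h4, natDegree_add_eq_left_of_natDegree_lt h3, h2]

theorem Dat.odd : Odd f.natDegree := by
  rw [D.mon_deg.2]
  exact odd_two_mul_add_one g

theorem Dat.map_eq : f.map red = A.map red ^ 2 + X * B.map red ^ 2 := by
  have h : red π = 0 := (D.ker π).2 dvd_rfl
  conv_lhs => rw [D.eq]
  rw [Polynomial.map_add, Polynomial.map_add, Polynomial.map_mul, Polynomial.map_mul,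
    Polynomial.map_pow, Polynomial.map_pow, map_X, map_C, h, C_0, zero_mul, add_zero]

theorem Dat.monB' : (B.map red).Monic := D.monB.map red

theorem Dat.degB' : (B.map red).natDegree = g := by
  rw [D.monB.natDegree_map, D.degB]

theorem Dat.map_zero {p : O[X]} : p.map red = 0 ↔ C π ∣ p := by
  rw [C_dvd_iff_dvd_coeff]
  constructor
  · intro h i
    rw [← D.ker, ← coeff_map, h, coeff_zero]
  · intro h
    ext i
    rw [coeff_map, coeff_zero, D.ker]
    exact h i

/-- The reduction. -/
noncomputable def rho : CR 2 f →+* k[X] :=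
  AdjoinRoot.lift (((expand k 2 : k[X] →ₐ[k] k[X]) : k[X] →+* k[X]).comp (mapRingHom red))
    (expand k 2 (A.map red) + X * expand k 2 (B.map red)) (by
      rw [eval₂_sub, eval₂_X_pow, eval₂_C]
      show _ - expand k 2 (f.map red) = 0
      rw [D.map_eq, map_add, map_mul, map_pow, map_pow, expand_X]
      linear_combination (expand k 2 (A.map red) * (X * expand k 2 (B.map red))) * two_poly D.two)

theorem rho_xp (a : O[X]) : rho D (xp 2 f a) = expand k 2 (a.map red) := by
  rw [rho, AdjoinRoot.lift_of]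
  rfl

theorem rho_yy : rho D (yy 2 f) = expand k 2 (A.map red) + X * expand k 2 (B.map red) := by
  rw [rho, AdjoinRoot.lift_root]

theorem rho_el (a b : O[X]) : rho D (el f a b) =
    expand k 2 (a.map red + b.map red * A.map red) + X * expand k 2 (b.map red * B.map red) := by
  rw [el, map_add, map_mul, rho_xp, rho_xp, rho_yy, map_add, map_mul, map_mul]
  ring

theorem rho_io (h : CR 2 f) : rho D (io f h) = rho D h := by
  rw [← el_eq h, io_el, rho_el, rho_el, Polynomial.map_neg]
  have h2 := two_poly D.two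
  simp only [neg_mul, map_neg, map_add, map_mul]
  linear_combination (-(expand k 2 (map red (c1 h)) * expand k 2 (map red A)) -
    X * (expand k 2 (map red (c1 h)) * expand k 2 (map red B))) * h2

theorem rho_nm (h : CR 2 f) : expand k 2 ((nm h).map red) = rho D h ^ 2 := by
  rw [← rho_xp D, ← nm_eq, map_mul, rho_io]; ring

theorem der_rho (h : CR 2 f) : expand k 2 (B.map red) ∣ derivative (rho D h) := by
  rw [← el_eq h, rho_el, der_par D.two, map_mul]
  exact dvd_mul_left _ _

theorem rho_zero {h : CR 2 f} : rho D h = 0 ↔ ∃ r : CR 2 f, h = xp 2 f (C π) * r := by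
  constructor
  · intro h0
    rw [← el_eq h, rho_el] at h0
    have h1 := congrArg derivative h0
    rw [der_par D.two, derivative_zero, expand_eq_zero two_pos] at h1
    have hb : (c1 h).map red = 0 := by
      rcases mul_eq_zero.1 h1 with h2 | h2
      · exact h2
      · exact absurd h2 D.monB'.ne_zero
    rw [hb, zero_mul, zero_mul, map_zero, mul_zero, add_zero, add_zero,
      expand_eq_zero two_pos] at h0
    rw [D.map_zero] at h0 hb
    obtain ⟨a, ha⟩ := h0
    obtain ⟨b, hb⟩ := hb
    refine ⟨el f a b, ?_⟩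
    rw [xp_mul_el, ← ha, ← hb, el_eq]
  · rintro ⟨r, rfl⟩
    rw [map_mul, rho_xp, map_C, (D.ker π).2 dvd_rfl, C_0, map_zero, zero_mul]

theorem rho_deg {m : ℕ} {h : CR 2 f} (hh : Le m h) : (rho D h).natDegree ≤ m := by
  have h1 := congrArg natDegree (rho_nm D h)
  rw [natDegree_expand, natDegree_pow] at h1
  have h2 : ((nm h).map red).natDegree ≤ (nm h).natDegree := natDegree_map_le
  have h3 := (le_iff D.odd).1 hh
  omega

/-- The image. -/
theorem rho_lift {d : ℕ} {q : k[X]} (hq : expand k 2 (B.map red) ∣ derivative q)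
    (hd : q.natDegree ≤ d) : ∃ h : CR 2 f, Le d h ∧ rho D h = q := by
  obtain ⟨q0, q1, hq1, h0, h1⟩ := parity q
  rw [hq1, der_par D.two, exp_dvd] at hq
  obtain ⟨c, hc⟩ := hq
  have hl : ∀ p : k[X], ∃ p' : O[X], p'.map red = p ∧ p'.degree = p.degree := fun p =>
    mem_lifts_and_degree_eq (by
      rw [lifts_iff_coeff_lifts]
      intro n
      exact D.surj _)
  obtain ⟨b, hb, hbd⟩ := hl c
  obtain ⟨a, ha, had⟩ := hl (q0 - c * A.map red)
  refine ⟨el f a b, ?_, ?_⟩
  · have hbn : b.natDegree = c.natDegree := natDegree_eq_of_degree_eq hbd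
    have han : a.natDegree = (q0 - c * A.map red).natDegree := natDegree_eq_of_degree_eq had
    have hAd : (A.map red).natDegree ≤ g := natDegree_map_le.trans D.degA
    by_cases hc0 : c = 0
    · subst hc0
      refine ⟨?_, Or.inl ?_⟩
      · rw [c0_el, han, zero_mul, sub_zero]; omega
      · rw [c1_el]
        rw [degree_zero] at hbd
        exact degree_eq_bot.1 hbd
    · have hq1d : q1.natDegree = g + c.natDegree := by
        rw [hc, natDegree_mul D.monB'.ne_zero hc0, D.degB']
      have hq10 : q1 ≠ 0 := by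
        rw [hc]; exact mul_ne_zero D.monB'.ne_zero hc0
      have h2 := h1.resolve_left hq10
      refine ⟨?_, Or.inr ?_⟩
      · rw [c0_el, han]
        have e1 := natDegree_sub_le q0 (c * A.map red)
        have e2 := natDegree_mul_le (p := c) (q := A.map red)
        omega
      · rw [c1_el, hbn, D.mon_deg.2]
        omega
  · rw [rho_el, ha, hb, hq1, hc]
    congr 2
    · ring
    · ring_nf

theorem rho_ne_of_exp {h : CR 2 f} {p : k[X]} (h0 : rho D h = expand k 2 p) (hp : p ≠ 0) :
    rho D h ≠ 0 := by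
  rw [h0, Ne, expand_eq_zero two_pos]
  exact hp

end

section frac

variable {O k K : Type} [CommRing O] [IsDomain O] [IsDiscreteValuationRing O] [Field k] [Field K]
  [Algebra O K] [IsFractionRing O K] {red : O →+* k} {π : O} {g : ℕ}
  {f A B E : O[X]} (D : Dat red π g f A B E)

theorem clr {π : O} (hπ : Irreducible π) (z : K) :
    ∃ (n : ℕ) (x : O), algebraMap O K π ^ n * z = algebraMap O K x := by
  obtain ⟨a, b, hb, rfl⟩ := IsFractionRing.div_surjective (A := O) z
  have hb0 : b ≠ 0 := nonZeroDivisors.ne_zero hb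
  obtain ⟨n, u, hu⟩ := IsDiscreteValuationRing.eq_unit_mul_pow_irreducible hb0 hπ
  have hb1 : algebraMap O K b ≠ 0 := by
    rw [Ne, map_eq_zero_iff _ (IsFractionRing.injective O K)]
    exact hb0
  refine ⟨n, ↑u⁻¹ * a, ?_⟩
  rw [mul_div_assoc', div_eq_iff hb1, ← map_pow, ← map_mul, ← map_mul]
  congr 1
  rw [hu]
  have : (↑u⁻¹ : O) * ↑u = 1 := by simp
  linear_combination (-(π ^ n * a)) * this

theorem clrP {π : O} (hπ : Irreducible π) (p : K[X]) :
    ∃ (n : ℕ) (q : O[X]), C (algebraMap O K π) ^ n * p = q.map (algebraMap O K) := by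
  induction p using Polynomial.induction_on' with
  | add p q hp hq =>
    obtain ⟨n, a, ha⟩ := hp
    obtain ⟨m, b, hb⟩ := hq
    refine ⟨n + m, C π ^ m * a + C π ^ n * b, ?_⟩
    rw [Polynomial.map_add, Polynomial.map_mul, Polynomial.map_mul, Polynomial.map_pow,
      Polynomial.map_pow, map_C, ← ha, ← hb, pow_add]
    ring
  | monomial n c =>
    obtain ⟨m, x, hx⟩ := clr hπ c
    refine ⟨m, monomial n x, ?_⟩
    rw [map_monomial, ← hx, ← C_pow, C_mul_monomial]

include D

theorem Dat.ne : π ≠ 0 := D.irr.ne_zero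

/-- The map to the curve over `K`. -/
noncomputable abbrev jj (K : Type) [Field K] [Algebra O K] (f : O[X]) :
    CR 2 f →+* CR 2 (f.map (algebraMap O K)) :=
  crMap 2 (algebraMap O K) f (f.map (algebraMap O K)) rfl

omit D in
theorem jj_inj : Function.Injective (jj K f) := map_inj _ _ (IsFractionRing.injective O K)

theorem Dat.oddK : Odd (f.map (algebraMap O K)).natDegree := by
  rw [natDegree_map_eq_of_injective (IsFractionRing.injective O K)]
  exact D.odd

omit D in
theorem jj_clr {π : O} (hπ : Irreducible π) (z : CR 2 (f.map (algebraMap O K))) :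
    ∃ (n : ℕ) (h : CR 2 f), xp 2 _ (C (algebraMap O K π) ^ n) * z = jj K f h := by
  obtain ⟨n, a, ha⟩ := clrP hπ (c0 z)
  obtain ⟨m, b, hb⟩ := clrP hπ (c1 z)
  refine ⟨n + m, el f (C π ^ m * a) (C π ^ n * b), ?_⟩
  rw [map_el, Polynomial.map_mul, Polynomial.map_mul, Polynomial.map_pow,
      Polynomial.map_pow, map_C, ← ha, ← hb]
  conv_lhs => rw [← el_eq z, xp_mul_el]
  congr 1 <;> ring

/-- Gauss's lemma. -/
theorem gauss {h r : CR 2 f} (hh : rho D h ≠ 0) {z : CR 2 (f.map (algebraMap O K))}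
    (hz : jj K f h * z = jj K f r) : ∃ s : CR 2 f, z = jj K f s := by
  haveI := dom (D.oddK (K := K))
  have key : ∀ (n : ℕ) (s : CR 2 f), xp 2 _ (C (algebraMap O K π) ^ n) * z = jj K f s →
      ∃ s : CR 2 f, z = jj K f s := by
    intro n
    induction n with
    | zero =>
      intro s hs
      exact ⟨s, by rw [← hs, pow_zero, xp_one, one_mul]⟩
    | succ n ih =>
      intro s hs
      have h1 : h * s = xp 2 f (C π ^ (n + 1)) * r := by
        apply jj_inj (K := K)
        rw [map_mul, map_mul, ← hs, crMap_xp, Polynomial.map_pow, map_C, ← hz]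
        ring
      have h2 : rho D h * rho D s = 0 := by
        rw [← map_mul, h1, map_mul, rho_xp, Polynomial.map_pow, map_C, (D.ker π).2 dvd_rfl, C_0,
          zero_pow (Nat.succ_ne_zero n), map_zero, zero_mul]
      have h3 : rho D s = 0 := (mul_eq_zero.1 h2).resolve_left hh
      obtain ⟨s', hs'⟩ := (rho_zero D).1 h3
      apply ih s'
      have hne : xp 2 (f.map (algebraMap O K)) (C (algebraMap O K π)) ≠ 0 := by
        intro h0
        rw [← xp_zero] at h0
        have h4 := xp_inj' h0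
        rw [C_eq_zero, map_eq_zero_iff _ (IsFractionRing.injective O K)] at h4
        exact D.ne h4
      apply mul_left_cancel₀ hne
      rw [← mul_assoc, ← xp_mul, ← pow_succ', hs, hs', map_mul, crMap_xp, map_C]
  obtain ⟨n, s, hs⟩ := jj_clr D.irr z
  exact key n s hs

/-- Gauss's lemma for polynomials. -/
theorem gaussP {u r : O[X]} (hu : u.map red ≠ 0) {w : K[X]}
    (hw : u.map (algebraMap O K) * w = r.map (algebraMap O K)) :
    ∃ s : O[X], w = s.map (algebraMap O K) := by
  obtain ⟨s, hs⟩ := gauss D (K := K) (h := xp 2 f u) (r := xp 2 f r)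
    (z := xp 2 _ w) (rho_ne_of_exp D (rho_xp D u) hu) (by
      rw [crMap_xp, crMap_xp, ← xp_mul, hw])
  refine ⟨c0 s, ?_⟩
  have h1 := congrArg c0 hs
  rw [c0_xp, c0_map] at h1
  exact h1

theorem gauss_dvd {u r : O[X]} (hu : u.map red ≠ 0)
    (h : u.map (algebraMap O K) ∣ r.map (algebraMap O K)) : u ∣ r := by
  obtain ⟨w, hw⟩ := h
  obtain ⟨s, rfl⟩ := gaussP D (K := K) hu hw.symm
  refine ⟨s, ?_⟩
  apply Polynomial.map_injective _ (IsFractionRing.injective O K)
  rw [hw, Polynomial.map_mul]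

/-- Primitive polynomials. -/
theorem primP {p : K[X]} (hp : p ≠ 0) : ∃ (c : K) (u : O[X]), c ≠ 0 ∧ u.map red ≠ 0 ∧
    p = C c * u.map (algebraMap O K) := by
  obtain ⟨n, q, hq⟩ := clrP D.irr p
  have hπ0 : algebraMap O K π ≠ 0 := by
    rw [Ne, map_eq_zero_iff _ (IsFractionRing.injective O K)]
    exact D.ne
  have hq0 : q ≠ 0 := by
    rintro rfl
    rw [Polynomial.map_zero, mul_eq_zero] at hq
    rcases hq with h | h
    · exact pow_ne_zero n (C_ne_zero.2 hπ0) h
    · exact hp h
  have hu : ¬ IsUnit (C π : O[X]) := by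
    rw [isUnit_C]
    exact D.irr.not_isUnit
  have hf : FiniteMultiplicity (C π) q := FiniteMultiplicity.of_not_isUnit hu hq0
  obtain ⟨u, hu1, hu2⟩ := hf.exists_eq_pow_mul_and_not_dvd
  set m := multiplicity (C π) q
  refine ⟨(algebraMap O K π ^ n)⁻¹ * algebraMap O K π ^ m, u,
    mul_ne_zero (inv_ne_zero (pow_ne_zero _ hπ0)) (pow_ne_zero _ hπ0), ?_, ?_⟩
  · rw [Ne, D.map_zero]; exact hu2
  · have h1 : C (algebraMap O K π) ^ n * p = C (algebraMap O K π) ^ m * u.map (algebraMap O K) := by
      rw [hq, hu1, Polynomial.map_mul, Polynomial.map_pow, map_C]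
    have h2 : C ((algebraMap O K π ^ n)⁻¹) * C (algebraMap O K π) ^ n = 1 := by
      rw [← C_pow, ← C_mul, inv_mul_cancel₀ (pow_ne_zero _ hπ0), C_1]
    calc p = C ((algebraMap O K π ^ n)⁻¹) * (C (algebraMap O K π) ^ n * p) := by
          rw [← mul_assoc, h2, one_mul]
      _ = _ := by rw [h1, ← mul_assoc, C_mul, C_pow]

omit [IsDiscreteValuationRing O] in
theorem noeth [IsNoetherianRing O] : IsNoetherianRing (CR 2 f) := by
  unfold CR
  infer_instance

/-- Primitive elements. -/
theorem prim {z : CR 2 (f.map (algebraMap O K))} (hz : z ≠ 0) : ∃ (c : K) (h : CR 2 f), c ≠ 0 ∧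
    rho D h ≠ 0 ∧ z = xp 2 _ (C c) * jj K f h := by
  haveI := dom D.odd
  haveI := dom (D.oddK (K := K))
  haveI : IsNoetherianRing (CR 2 f) := noeth D
  obtain ⟨n, q, hq⟩ := jj_clr D.irr z
  have hπ0 : algebraMap O K π ≠ 0 := by
    rw [Ne, map_eq_zero_iff _ (IsFractionRing.injective O K)]
    exact D.ne
  have hx0 : ∀ c : K, c ≠ 0 → xp 2 (f.map (algebraMap O K)) (C c) ≠ 0 := by
    intro c hc h0
    rw [← xp_zero] at h0
    exact hc (C_eq_zero.1 (xp_inj' h0))
  have hq0 : q ≠ 0 := by
    rintro rfl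
    rw [map_zero, mul_eq_zero, ← C_pow] at hq
    rcases hq with h | h
    · exact hx0 _ (pow_ne_zero n hπ0) h
    · exact hz h
  have hu : ¬ IsUnit (xp 2 f (C π)) := by
    intro h
    have h1 := h.map (rho D)
    rw [rho_xp, map_C, (D.ker π).2 dvd_rfl, C_0, map_zero] at h1
    exact not_isUnit_zero h1
  have hf : FiniteMultiplicity (xp 2 f (C π)) q := FiniteMultiplicity.of_not_isUnit hu hq0
  obtain ⟨u, hu1, hu2⟩ := hf.exists_eq_pow_mul_and_not_dvd
  set m := multiplicity (xp 2 f (C π)) q
  refine ⟨(algebraMap O K π ^ n)⁻¹ * algebraMap O K π ^ m, u,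
    mul_ne_zero (inv_ne_zero (pow_ne_zero _ hπ0)) (pow_ne_zero _ hπ0), ?_, ?_⟩
  · intro h0
    exact hu2 ((rho_zero D).1 h0)
  · have h1 : xp 2 _ (C (algebraMap O K π) ^ n) * z =
        xp 2 _ (C (algebraMap O K π) ^ m) * jj K f u := by
      rw [hq, hu1, map_mul, map_pow, crMap_xp, map_C, xp_pow]
    have h2 : xp 2 (f.map (algebraMap O K)) (C ((algebraMap O K π ^ n)⁻¹)) *
        xp 2 _ (C (algebraMap O K π) ^ n) = 1 := by
      rw [← xp_mul, ← C_pow, ← C_mul, inv_mul_cancel₀ (pow_ne_zero _ hπ0), C_1, xp_one]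
    calc z = xp 2 _ (C ((algebraMap O K π ^ n)⁻¹)) * (xp 2 _ (C (algebraMap O K π) ^ n) * z) := by
          rw [← mul_assoc, h2, one_mul]
      _ = _ := by rw [h1, ← mul_assoc, ← xp_mul, C_mul, C_pow]

end frac

end Run7.h23.Lo
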